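import Pool.Agent.Lib.MP_d3cc86_co.AM.Defs
import Pool.Agent.Lib.MP_d3cc86_co.RG.KNg

section

set_option autoImplicit false
set_option linter.unusedSectionVars false

open Finset Pointwise

namespace AM

open RG (stb mem_stb)
open Pool.Agent.Lib.MP_d3cc86_co (lam lam_add_inter card_union_vadd)

variable {G : Type} [AddCommGroup G] [Fintype G]

private lemma SM_add_single [DecidableEq G] (ν : G → ℕ) (x : G) :
    SM (ν + Pi.single x 1) = SM ν ∪ (x +ᵥ SM ν) := by
  rw [SM_add, SM_single]
  ext z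
  rw [Finset.mem_add, Finset.mem_union, Finset.mem_vadd_finset]
  constructor
  · rintro ⟨a, ha, b, hb, rfl⟩
    rw [Finset.mem_insert, Finset.mem_singleton] at hb
    rcases hb with rfl | rfl
    · left; rwa [add_zero]
    · right; exact ⟨a, ha, by rw [vadd_eq_add, add_comm]⟩
  · rintro (h | ⟨a, ha, rfl⟩)
    · exact ⟨z, h, 0, by simp, add_zero z⟩
    · exact ⟨a, ha, x, by simp, by rw [vadd_eq_add, add_comm]⟩

/-- Removing one element `x`.  Let `B' = SM (del μ x)`.  By `del_add_single`, `SM_add`, `SM_single`: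
`SM μ = B' + {0, x} = B' ∪ (x +ᵥ B')`, so `|SM μ| = |B'| + lam B' x` (`card_union_vadd`).  And
`lam (SM μ) x ≤ lam B' x`: `(x + SM μ) \ SM μ ⊆ (x + x + B') \ (x + B') = x + ((x + B') \ B')`. -/
theorem inc [DecidableEq G] (μ : G → ℕ) (x : G) (hx : μ x ≠ 0) :
    (SM (del μ x)).card + lam (SM μ) x ≤ (SM μ).card := by
  have h1 : SM μ = SM (del μ x) ∪ (x +ᵥ SM (del μ x)) := by
    conv_lhs => rw [← del_add_single μ x hx]
    exact SM_add_single _ _
  set B := SM (del μ x) with hB
  have h2 : (SM μ).card = B.card + lam B x := by rw [h1, card_union_vadd]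
  have h3 : lam (SM μ) x ≤ lam B x := by
    unfold lam
    rw [h1]
    have : (x +ᵥ (B ∪ (x +ᵥ B))) \ (B ∪ (x +ᵥ B)) ⊆ x +ᵥ ((x +ᵥ B) \ B) := by
      intro z hz
      rw [Finset.mem_sdiff, Finset.vadd_finset_union, Finset.mem_union, Finset.mem_union] at hz
      obtain ⟨h4, h5⟩ := hz
      push Not at h5
      rw [Finset.vadd_finset_sdiff, Finset.mem_sdiff]
      rcases h4 with h4 | h4
      · exact absurd h4 h5.2
      · exact ⟨h4, h5.2⟩
    calc _ ≤ _ := Finset.card_le_card this
      _ = _ := Finset.card_vadd_finset _ _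
  omega

/-- From `RG.kn1` with `c = id`: the stabilizer is `⊥`, `Nat.card ⊥ = 1` and
`outs ⊥ id μ = ∑_{x ≠ 0} μ x = tot μ`. -/
theorem one_add_tot_le (μ : G → ℕ) (h0 : μ 0 = 0) (hst : stb (SM μ) = ⊥) :
    1 + tot μ ≤ (SM μ).card := by
  have h := RG.kn1 (id : G → G) μ
  unfold SM at hst
  rw [hst] at h
  have h1 : RG.outs (⊥ : AddSubgroup G) (id : G → G) μ = tot μ := by
    unfold RG.outs tot
    rw [Finset.sum_filter]
    refine Finset.sum_congr rfl fun x _ => ?_
    by_cases hx : x = 0
    · rw [if_neg (by simpa using hx), hx, h0]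
    · rw [if_pos (by simpa using hx)]
  rw [h1] at h
  unfold SM
  simpa using h

/-- `ν x = 0` because `x ∉ H`; so `ν + Pi.single x 1 ≤ μ` and `SM μ ⊇ B ∪ (x +ᵥ B)`, `B = SM ν ⊆ H`
(`SM_sub`), and `x + B` lies in the coset `x + H ≠ H`, so the union is disjoint. -/
theorem coset_double (H : AddSubgroup G) (ν μ : G → ℕ) (hν : ∀ x, ν x ≠ 0 → x ∈ H)
    (hle : ∀ y, ν y ≤ μ y) (x : G) (hx : x ∉ H) (hμ : μ x ≠ 0) :
    2 * (SM ν).card ≤ (SM μ).card := by
  classical
  have h0 : ν x = 0 := by
    by_contra h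
    exact hx (hν x h)
  have h1 : ∀ y, (ν + Pi.single x 1 : G → ℕ) y ≤ μ y := by
    intro y
    rw [Pi.add_apply]
    rcases eq_or_ne y x with rfl | h
    · rw [Pi.single_eq_same, h0]; omega
    · rw [Pi.single_eq_of_ne h, add_zero]; exact hle y
  have h2 := Finset.card_le_card (SM_mono h1)
  rw [SM_add_single, Finset.card_union_of_disjoint, Finset.card_vadd_finset] at h2
  · omega
  · rw [Finset.disjoint_left]
    intro z hz hz'
    rw [Finset.mem_vadd_finset] at hz'
    obtain ⟨y, hy, rfl⟩ := hz'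
    apply hx
    have e1 := SM_sub hν _ hz
    have e2 := SM_sub hν _ hy
    have e3 := H.sub_mem e1 e2
    simpa using e3

end AM
end

section

section

set_option autoImplicit false
set_option linter.unusedSectionVars false

open Finset Pointwise

namespace AM

open RG (stb mem_stb)

variable {Q : Type} [AddCommGroup Q] [Fintype Q] {ι : Type} [Fintype ι]

open Classical in
/-- the subset sums of a family -/
noncomputable def FS (f : ι → Q) : Finset Q := univ.image (fun B : Finset ι => ∑ i ∈ B, f i)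

open Classical in
/-- the multiset of values of a family -/
noncomputable def cnt (f : ι → Q) (x : Q) : ℕ := (univ.filter (fun i => f i = x)).card

/-- `⊇`: for `B ⊆ ι` put `j x = |{i ∈ B : f i = x}| ≤ cnt f x`; `∑_{i ∈ B} f i = ∑_x j x • x`
(`Finset.sum_fiberwise`).  `⊆`: for `j ≤ cnt f` choose for each `x` a subset `B x` of
`{i : f i = x}` with `j x` elements; `B = ⋃ B x`. -/
theorem SM_cnt (f : ι → Q) : SM (cnt f) = FS f := by
  classical
  ext t
  rw [mem_SM]
  unfold FS
  simp only [Finset.mem_image, Finset.mem_univ, true_and]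
  constructor
  · rintro ⟨j, hj, rfl⟩
    have hex : ∀ x : Q, ∃ B : Finset ι, B ⊆ univ.filter (fun i => f i = x) ∧ B.card = j x := by
      intro x
      refine Finset.exists_subset_card_eq ?_
      have h1 := hj x
      unfold cnt at h1
      convert h1
    choose B hB hBc using hex
    refine ⟨univ.filter fun i => i ∈ B (f i), ?_⟩
    rw [← Finset.sum_fiberwise (univ.filter fun i => i ∈ B (f i)) f f]
    refine Finset.sum_congr rfl fun x _ => ?_
    have h1 : (univ.filter fun i => i ∈ B (f i)).filter (fun i => f i = x) = B x := by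
      ext i
      simp only [Finset.mem_filter, Finset.mem_univ, true_and]
      constructor
      · rintro ⟨h2, h3⟩
        rw [h3] at h2
        exact h2
      · intro h2
        have h3 := (Finset.mem_filter.1 (hB x h2)).2
        rw [h3]
        exact ⟨h2, rfl⟩
    rw [h1, ← hBc x, ← Finset.sum_const]
    exact Finset.sum_congr rfl fun i hi => (Finset.mem_filter.1 (hB x hi)).2
  · rintro ⟨B, rfl⟩
    refine ⟨fun x => (B.filter fun i => f i = x).card, fun x => ?_, ?_⟩
    · unfold cnt
      refine Finset.card_le_card ?_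
      intro i hi
      rw [Finset.mem_filter] at hi ⊢
      exact ⟨Finset.mem_univ i, hi.2⟩
    · rw [← Finset.sum_fiberwise B f f]
      refine Finset.sum_congr rfl fun x _ => ?_
      rw [← Finset.sum_const]
      exact Finset.sum_congr rfl fun i hi => (Finset.mem_filter.1 hi).2.symm

/-- Flipping signs translates the set of sums.  Let `N = {i : f' i ≠ f i}`, so `f' i = - f i` for
`i ∈ N`, and `c = ∑_{i ∈ N} f' i`.  For `B ⊆ ι` let `B' = (B \ N) ∪ (N \ B)`; then
`∑_{i ∈ B'} f' i = ∑_{i ∈ B \ N} f i + ∑_{i ∈ N} f' i - ∑_{i ∈ N ∩ B} f' i = c + ∑_{i ∈ B} f i`, and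
`B ↦ B'` is a bijection (an involution). -/
theorem FS_flip [DecidableEq Q] (f f' : ι → Q) (h : ∀ i, f' i = f i ∨ f' i = - f i) :
    ∃ c : Q, FS f' = c +ᵥ FS f := by
  classical
  set N : Finset ι := univ.filter fun i => f' i ≠ f i with hN
  have key : ∀ B : Finset ι, ∑ i ∈ symmDiff B N, f' i = ∑ i ∈ N, f' i + ∑ i ∈ B, f i := by
    intro B
    have e : ∀ (S : Finset ι) (g : ι → Q), ∑ i ∈ S, g i = ∑ i, if i ∈ S then g i else 0 := by
      intro S g
      rw [Finset.sum_ite_mem, Finset.univ_inter]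
    rw [e (symmDiff B N), e N, e B, ← Finset.sum_add_distrib]
    refine Finset.sum_congr rfl fun i _ => ?_
    simp only [Finset.mem_symmDiff]
    by_cases h1 : i ∈ N
    · have h2 : f' i = - f i := by
        rcases h i with h3 | h3
        · exact absurd h3 (Finset.mem_filter.1 h1).2
        · exact h3
      by_cases h3 : i ∈ B
      · simp [h1, h3, h2]
      · simp [h1, h3]
    · have h2 : f' i = f i := by
        by_contra h3
        exact h1 (Finset.mem_filter.2 ⟨Finset.mem_univ i, h3⟩)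
      by_cases h3 : i ∈ B
      · simp [h1, h3, h2]
      · simp [h1, h3]
  refine ⟨∑ i ∈ N, f' i, ?_⟩
  ext t
  rw [Finset.mem_vadd_finset]
  unfold FS
  simp only [Finset.mem_image, Finset.mem_univ, true_and, vadd_eq_add]
  constructor
  · rintro ⟨B, rfl⟩
    refine ⟨∑ i ∈ symmDiff B N, f i, ⟨_, rfl⟩, ?_⟩
    rw [← key, symmDiff_symmDiff_cancel_right]
  · rintro ⟨_, ⟨B, rfl⟩, rfl⟩
    exact ⟨symmDiff B N, key B⟩

/-- translation does not change the stabilizer (compare `RG.stb_translate`) -/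
theorem stb_vadd [DecidableEq Q] (X : Finset Q) (c : Q) : stb (c +ᵥ X) = stb X := by
  have h : c +ᵥ X = X.image fun t => c + t := by
    ext t
    rw [Finset.mem_vadd_finset, Finset.mem_image]
    rfl
  rw [h, RG.stb_translate]

end AM
end

section

set_option autoImplicit false
set_option linter.unusedSectionVars false

open Finset Pointwise

namespace AM

open Pool.Agent.Lib.MP_d3cc86_co (Asym lam lam_add_inter card_union_vadd subsetSum_insert'
  subsetSum_singleton' subsetSum_empty')

variable {G : Type} [AddCommGroup G] [Fintype G]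

private lemma t1_add {V : Finset G} (hV : Asym V) {a b : G} (ha : a ∈ V) (hb : b ∈ V) :
    a + b ≠ 0 := by
  intro h
  apply hV a ha
  rw [show -a = b from (eq_neg_of_add_eq_zero_right h).symm]
  exact hb

private lemma t1_pairSum [DecidableEq G] {x y : G} (hxy : x ≠ y) :
    ({x, y} : Finset G).subsetSum = {0, y, x, x + y} := by
  rw [subsetSum_insert' (by simpa using hxy), subsetSum_singleton']
  ext z
  simp only [Finset.mem_union, Finset.mem_insert, Finset.mem_singleton, Finset.mem_vadd_finset,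
    vadd_eq_add]
  constructor
  · rintro ((h | h) | ⟨w, (rfl | rfl), rfl⟩)
    · exact Or.inl h
    · exact Or.inr (Or.inl h)
    · right; right; left; exact add_zero x
    · right; right; right; rfl
  · rintro (h | h | h | h)
    · exact Or.inl (Or.inl h)
    · exact Or.inl (Or.inr h)
    · exact Or.inr ⟨0, Or.inl rfl, by rw [h, add_zero]⟩
    · exact Or.inr ⟨y, Or.inr rfl, h.symm⟩

private lemma t1_card4 [DecidableEq G] {x y : G} (hxy : x ≠ y) (hx : x + x ≠ 0) (hy : y + y ≠ 0)
    (hxy0 : x + y ≠ 0) : ({0, y, x, x + y} : Finset G).card = 4 := by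
  have hx0 : x ≠ 0 := by rintro rfl; exact hx (add_zero 0)
  have hy0 : y ≠ 0 := by rintro rfl; exact hy (add_zero 0)
  rw [Finset.card_insert_of_notMem, Finset.card_insert_of_notMem, Finset.card_insert_of_notMem,
    Finset.card_singleton]
  · simp only [Finset.mem_singleton]
    intro h
    exact hy0 (by simpa using h)
  · simp only [Finset.mem_insert, Finset.mem_singleton, not_or]
    refine ⟨fun h => hxy h.symm, fun h => hx0 (by simpa using h)⟩
  · simp only [Finset.mem_insert, Finset.mem_singleton, not_or]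
    exact ⟨hy0.symm, hx0.symm, fun h => hxy0 h.symm⟩

/-- two elements: four sums `0, x, y, x + y` -/
theorem pair [DecidableEq G] (V : Finset G) (hV : Asym V) (h2 : V.card = 2) :
    4 ≤ V.subsetSum.card := by
  obtain ⟨x, y, hxy, rfl⟩ := Finset.card_eq_two.1 h2
  have hx : x ∈ ({x, y} : Finset G) := by simp
  have hy : y ∈ ({x, y} : Finset G) := by simp
  rw [t1_pairSum hxy, t1_card4 hxy (t1_add hV hx hx) (t1_add hV hy hy) (t1_add hV hx hy)]

/-- one element: two sums -/
theorem single_two [DecidableEq G] (V : Finset G) (hV : Asym V) (h1 : V.card = 1) :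
    2 ≤ V.subsetSum.card := by
  obtain ⟨x, rfl⟩ := Finset.card_eq_one.1 h1
  have hx : x ∈ ({x} : Finset G) := by simp
  have h := t1_add hV hx hx
  have hx0 : x ≠ 0 := by rintro rfl; exact h (add_zero 0)
  rw [subsetSum_singleton', Finset.card_insert_of_notMem, Finset.card_singleton]
  simpa using hx0.symm

/-- An asymmetric set of three elements `x, y, z` has at least seven subset sums.
`P = {0, x, y, x + y} = Σ {x, y}` has four elements (`x ≠ ± y`, `x, y ≠ 0`; `x ≠ -x`, `y ≠ -y` because
the set is asymmetric).  `Σ {x, y, z} = P ∪ (z +ᵥ P)`, `|P ∪ (z +ᵥ P)| = 8 - |P ∩ (z +ᵥ P)|`, and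
`|P ∩ (z +ᵥ P)| ≤ 1`: a common element is `p = z + p'` with `p, p' ∈ P`, so `z = p - p'` is one of
`±x, ±y, 0` (impossible) or one of `x + y = (x+y) - 0`, `-(x+y) = 0 - (x+y)`, `x - y`, `y - x`, each of
which comes from exactly one pair `(p, p')`; two of these four values cannot be equal:
`x + y = x - y` gives `y = -y`; `x + y = y - x` gives `x = -x`; `x - y = -(x+y)` gives `x = -x`;
`y - x = -(x+y)` gives `y = -y`; `x + y = -(x+y) = z` gives `z = -z`, `x - y = y - x = z` gives `z = -z`. -/
theorem triple [DecidableEq G] (V : Finset G) (hV : Asym V) (h3 : V.card = 3) :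
    7 ≤ V.subsetSum.card := by
  obtain ⟨z, x, y, hzx, hzy, hxy, rfl⟩ := Finset.card_eq_three.1 h3
  have mx : x ∈ ({z, x, y} : Finset G) := by simp
  have my : y ∈ ({z, x, y} : Finset G) := by simp
  have mz : z ∈ ({z, x, y} : Finset G) := by simp
  have hxx := t1_add hV mx mx
  have hyy := t1_add hV my my
  have hzz := t1_add hV mz mz
  have hxy0 := t1_add hV mx my
  have hxz0 := t1_add hV mz mx
  have hyz0 := t1_add hV mz my
  have hz0 : z ≠ 0 := by rintro rfl; exact hzz (add_zero 0)
  rw [subsetSum_insert' (by simp [hzx, hzy]), t1_pairSum hxy, card_union_vadd,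
    t1_card4 hxy hxx hyy hxy0]
  set P : Finset G := {0, y, x, x + y} with hP
  have hPc : P.card = 4 := t1_card4 hxy hxx hyy hxy0
  have h1 := lam_add_inter P z
  have key : ∀ p ∈ P, ∀ p' ∈ P, p = z + p' →
      (p = x + y ∧ p' = 0) ∨ (p = 0 ∧ p' = x + y) ∨ (p = x ∧ p' = y) ∨ (p = y ∧ p' = x) := by
    intro p hp p' hp' h
    rw [hP] at hp hp'
    simp only [Finset.mem_insert, Finset.mem_singleton] at hp hp'
    rcases hp with h1 | h1 | h1 | h1 <;> rcases hp' with h2 | h2 | h2 | h2 <;> rw [h1, h2] at h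
    · exact absurd (by simpa using h.symm) hz0
    · exact absurd h.symm hyz0
    · exact absurd h.symm hxz0
    · exact Or.inr (Or.inl ⟨h1, h2⟩)
    · exact absurd (by simpa using h.symm) hzy
    · exact absurd (by simpa using h) hz0
    · exact Or.inr (Or.inr (Or.inr ⟨h1, h2⟩))
    · exfalso
      apply hxz0
      have h' : y + (z + x) = y + 0 := by
        rw [add_zero]
        conv_rhs => rw [h]
        abel
      exact add_left_cancel h'
    · exact absurd (by simpa using h.symm) hzx
    · exact Or.inr (Or.inr (Or.inl ⟨h1, h2⟩))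
    · exact absurd (by simpa using h) hz0
    · exfalso
      apply hyz0
      have h' : x + (z + y) = x + 0 := by
        rw [add_zero]
        conv_rhs => rw [h]
        abel
      exact add_left_cancel h'
    · exact Or.inl ⟨h1, h2⟩
    · exfalso
      apply hzx
      exact (add_right_cancel h).symm
    · exfalso
      apply hzy
      have h' : x + z = x + y := by rw [h]; abel
      exact add_left_cancel h'
    · exact absurd (by simpa using h) hz0
  have h2 : ((z +ᵥ P) ∩ P).card ≤ 1 := by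
    rw [Finset.card_le_one]
    have key2 : ∀ p ∈ (z +ᵥ P) ∩ P, (p = x + y ∧ z = x + y) ∨ (p = 0 ∧ z + (x + y) = 0) ∨
        (p = x ∧ x = z + y) ∨ (p = y ∧ y = z + x) := by
      intro p hp
      rw [Finset.mem_inter, Finset.mem_vadd_finset] at hp
      obtain ⟨⟨p', hp', hpe⟩, hp⟩ := hp
      rw [vadd_eq_add] at hpe
      rcases key p hp p' hp' hpe.symm with ⟨h1, h2⟩ | ⟨h1, h2⟩ | ⟨h1, h2⟩ | ⟨h1, h2⟩
      · exact Or.inl ⟨h1, by rw [← h1, ← hpe, h2, add_zero]⟩
      · exact Or.inr (Or.inl ⟨h1, by rw [← h2, hpe, h1]⟩)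
      · exact Or.inr (Or.inr (Or.inl ⟨h1, by rw [← h1, ← hpe, h2]⟩))
      · exact Or.inr (Or.inr (Or.inr ⟨h1, by rw [← h1, ← hpe, h2]⟩))
    have c12 : z = x + y → z + (x + y) = 0 → False := by
      intro h1 h2
      rw [← h1] at h2
      exact hzz h2
    have c13 : z = x + y → x = z + y → False := by
      intro h1 h2
      apply hyy
      have h3 : x + (y + y) = x + 0 := by
        rw [add_zero]
        conv_rhs => rw [h2, h1]
        abel
      exact add_left_cancel h3
    have c14 : z = x + y → y = z + x → False := by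
      intro h1 h2
      apply hxx
      have h3 : y + (x + x) = y + 0 := by
        rw [add_zero]
        conv_rhs => rw [h2, h1]
        abel
      exact add_left_cancel h3
    have c23 : z + (x + y) = 0 → x = z + y → False := by
      intro h1 h2
      apply hxx
      rw [← h1]
      nth_rewrite 1 [h2]
      abel
    have c24 : z + (x + y) = 0 → y = z + x → False := by
      intro h1 h2
      apply hyy
      rw [← h1]
      nth_rewrite 1 [h2]
      abel
    have c34 : x = z + y → y = z + x → False := by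
      intro h1 h2
      apply hzz
      have h3 : x + (z + z) = x + 0 := by
        rw [add_zero]
        conv_rhs => rw [h1, h2]
        abel
      exact add_left_cancel h3
    intro p hp q hq
    rcases key2 p hp with ⟨h1, h2⟩ | ⟨h1, h2⟩ | ⟨h1, h2⟩ | ⟨h1, h2⟩ <;>
      rcases key2 q hq with ⟨k1, k2⟩ | ⟨k1, k2⟩ | ⟨k1, k2⟩ | ⟨k1, k2⟩
    · rw [h1, k1]
    · exact (c12 h2 k2).elim
    · exact (c13 h2 k2).elim
    · exact (c14 h2 k2).elim
    · exact (c12 k2 h2).elim
    · rw [h1, k1]
    · exact (c23 h2 k2).elim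
    · exact (c24 h2 k2).elim
    · exact (c13 k2 h2).elim
    · exact (c23 k2 h2).elim
    · rw [h1, k1]
    · exact (c34 h2 k2).elim
    · exact (c14 k2 h2).elim
    · exact (c24 k2 h2).elim
    · exact (c34 k2 h2).elim
    · rw [h1, k1]
  omega

end AM
end

section

set_option autoImplicit false
set_option linter.unusedSectionVars false

open Finset Pointwise

namespace AM

open RG (stb mem_stb)

variable {G : Type} [AddCommGroup G] [Fintype G]

/-- Let `X = SM μ`, `Y = SM ν`, both inside `H` (`SM_sub`), `X + Y = SM (μ + ν)` (`SM_add`).  If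
`|X| + |Y| > |H|` then for every `h ∈ H` the sets `X` and `{h - y : y ∈ Y}` (both subsets of `H`)
intersect, so `X + Y = H` (as a set), and then every element of `H` stabilizes `X + Y`, i.e. `H ≤ ⊥`,
contradiction with `H ≠ ⊥`. -/
theorem pigeon (H : AddSubgroup G) (hH : H ≠ ⊥) (μ ν : G → ℕ) (hμ : ∀ x, μ x ≠ 0 → x ∈ H)
    (hν : ∀ x, ν x ≠ 0 → x ∈ H) (hst : stb (SM (μ + ν)) = ⊥) :
    (SM μ).card + (SM ν).card ≤ Nat.card H := by
  classical
  by_contra hcon
  push Not at hcon
  apply hH
  rw [eq_bot_iff, ← hst]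
  have hX : SM μ ⊆ sf H := fun t ht => (mem_sf H t).2 (SM_sub hμ t ht)
  have hY : SM ν ⊆ sf H := fun t ht => (mem_sf H t).2 (SM_sub hν t ht)
  have hXY : SM (μ + ν) = sf H := by
    apply Finset.Subset.antisymm
    · intro t ht
      rw [mem_sf]
      refine SM_sub (fun x hx => ?_) t ht
      rw [Pi.add_apply] at hx
      rcases Nat.eq_zero_or_pos (μ x) with h | h
      · exact hν x (by omega)
      · exact hμ x (by omega)
    · intro h hh
      rw [mem_sf] at hh
      have h1 : (SM ν).image (fun y => h - y) ⊆ sf H := by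
        intro z hz
        rw [Finset.mem_image] at hz
        obtain ⟨y, hy, rfl⟩ := hz
        rw [mem_sf]
        exact H.sub_mem hh (SM_sub hν y hy)
      have h2 : ((SM ν).image (fun y => h - y)).card = (SM ν).card :=
        Finset.card_image_of_injective _ (sub_right_injective)
      have h3 : (sf H).card < (SM μ).card + ((SM ν).image (fun y => h - y)).card := by
        rw [h2, card_sf]
        exact hcon
      obtain ⟨z, hz⟩ := Finset.inter_nonempty_of_card_lt_card_add_card hX h1 h3
      rw [Finset.mem_inter, Finset.mem_image] at hz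
      obtain ⟨hz1, y, hy, hz2⟩ := hz
      rw [SM_add, Finset.mem_add]
      exact ⟨z, hz1, y, hy, by rw [← hz2, sub_add_cancel]⟩
  rw [hXY]
  intro g hg
  rw [mem_stb]
  intro z
  rw [mem_sf, mem_sf]
  exact H.add_mem_cancel_right hg

/-- `res H μ ≤ μ`, so `SM (res H μ)` is aperiodic (`ap_mono`); it is contained in `H` (`SM_sub`), hence
`1 + tot (res H μ) ≤ |SM (res H μ)| ≤ |H|` by `one_add_tot_le` and `card_sf`. -/
theorem mass (H : AddSubgroup G) (μ : G → ℕ) (h0 : μ 0 = 0) (hst : stb (SM μ) = ⊥) :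
    tot (res H μ) + 1 ≤ Nat.card H := by
  classical
  have h1 : res H μ 0 = 0 := by
    have := res_le H μ 0
    omega
  have h2 : stb (SM (res H μ)) = ⊥ := ap_mono (res_le H μ) hst
  have h3 := one_add_tot_le (res H μ) h1 h2
  have h4 : SM (res H μ) ⊆ sf H := by
    intro t ht
    rw [mem_sf]
    refine SM_sub (fun x hx => ?_) t ht
    by_contra hxH
    apply hx
    unfold res
    rw [if_neg hxH]
  have h5 := Finset.card_le_card h4
  rw [card_sf] at h5
  omega

/-- `V = sp μ`, `μ x ≤ w`: the elements outside `H` have total mass `tot μ - tot (res H μ)`, and each of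
the `|off V H|` elements of `V \ H` has mass at most `w`. -/
theorem tot_le_off (H : AddSubgroup G) (μ : G → ℕ) (w : ℕ) (hb : ∀ x, μ x ≤ w) :
    tot μ ≤ tot (res H μ) + w * (off (sp μ) H).card := by
  classical
  have h1 : ∀ x, μ x ≤ res H μ x + (if x ∈ off (sp μ) H then w else 0) := by
    intro x
    unfold res
    by_cases hx : x ∈ H
    · rw [if_pos hx]
      exact Nat.le_add_right _ _
    · rw [if_neg hx, zero_add]
      by_cases h0 : μ x = 0
      · rw [h0]
        exact Nat.zero_le _
      · rw [if_pos ((mem_off _ _ _).2 ⟨(mem_sp μ x).2 h0, hx⟩)]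
        exact hb x
  unfold tot
  refine (Finset.sum_le_sum fun x _ => h1 x).trans ?_
  rw [Finset.sum_add_distrib, Finset.sum_ite_mem, Finset.univ_inter, Finset.sum_const, smul_eq_mul,
    mul_comm w]

/-- `∑_x μ x ≤ w |sp μ|`. -/
theorem tot_le_sp (μ : G → ℕ) (w : ℕ) (hb : ∀ x, μ x ≤ w) : tot μ ≤ w * (sp μ).card := by
  classical
  have h1 : ∀ x, μ x ≤ (if x ∈ sp μ then w else 0) := by
    intro x
    by_cases h0 : μ x = 0
    · rw [h0]
      exact Nat.zero_le _
    · rw [if_pos ((mem_sp μ x).2 h0)]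
      exact hb x
  unfold tot
  refine (Finset.sum_le_sum fun x _ => h1 x).trans ?_
  rw [Finset.sum_ite_mem, Finset.univ_inter, Finset.sum_const, smul_eq_mul, mul_comm w]

end AM
end

section

set_option autoImplicit false

open Finset

namespace AM

open RG (gg gg_succ gg_zero)

private lemma C2b_gg (w : ℕ) (hw : 1 ≤ w) (s : ℕ) :
    gg w s = 1 + ∑ t ∈ Finset.range s, (t / w + 1) := by
  induction s with
  | zero => rw [gg_zero, Finset.sum_range_zero, add_zero]
  | succ s ih => rw [gg_succ w s hw, ih, Finset.sum_range_succ]; ring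

private lemma C2b_part (w s a b : ℕ) (hws : w ≤ s) (hab : a + b ≤ s) :
    w * ∑ t ∈ Finset.range b, ((a + t) / w + 1) ≤ b * (2 * s) := by
  rw [Finset.mul_sum]
  have h1 : ∀ t ∈ Finset.range b, w * ((a + t) / w + 1) ≤ 2 * s := by
    intro t ht
    rw [Finset.mem_range] at ht
    have h2 := Nat.mul_div_le (a + t) w
    rw [Nat.mul_add, mul_one]
    omega
  have h2 := Finset.sum_le_sum h1
  rw [Finset.sum_const, Finset.card_range, smul_eq_mul] at h2
  exact h2

/-- `gg w s = 1 + ∑_{i=1}^{s} ⌈i/w⌉` (`RG.gg_succ`, `⌈(t+1)/w⌉ = t / w + 1`).  Let `c i = ⌈i/w⌉`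
(`= qq 0 w i`, increasing in `i`), `qq C w i = c (i - C)`.  For `C ≤ j0`:
`∑_{i ∈ Ioc j0 (s - j0)} qq C w i = ∑_{i ∈ Ioc (j0 - C) (s - j0 - C)} c i` and
`∑_{i=1}^{s} c i` has `2 j0` further terms (`i ≤ j0 - C` and `i > s - j0 - C`), each at most `c s`, and
`w c s ≤ s + w - 1 ≤ 2 s`.  So
`w gg w s = w + w ∑_{i=1}^s c i ≤ w + w ∑_{Ioc j0 (s-j0)} qq C w i + 2 j0 (2 s)`. -/
theorem sumqq (C w s j0 : ℕ) (hw : 1 ≤ w) (hws : w ≤ s) (h0 : C ≤ j0) (h1 : 2 * j0 ≤ s) :
    w * gg w s ≤ w + w * ∑ i ∈ Finset.Ioc j0 (s - j0), qq C w i + 4 * j0 * s := by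
  obtain ⟨a, ha⟩ : ∃ a, j0 = C + a := ⟨j0 - C, by omega⟩
  obtain ⟨n, hn⟩ : ∃ n, s = 2 * j0 + n := ⟨s - 2 * j0, by omega⟩
  obtain ⟨b, hb⟩ : ∃ b, 2 * j0 = a + b := ⟨2 * j0 - a, by omega⟩
  have hs : s = a + n + b := by omega
  have hsum : ∑ i ∈ Finset.Ioc j0 (s - j0), qq C w i =
      ∑ u ∈ Finset.range n, ((a + u) / w + 1) := by
    have e1 : Finset.Ioc j0 (s - j0) = Finset.Ico (j0 + 1) (j0 + 1 + n) := by
      ext i
      rw [Finset.mem_Ioc, Finset.mem_Ico]
      omega
    rw [e1, Finset.sum_Ico_eq_sum_range]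
    have e2 : j0 + 1 + n - (j0 + 1) = n := by omega
    rw [e2]
    refine Finset.sum_congr rfl fun u _ => ?_
    unfold qq
    have e3 : j0 + 1 + u - C + w - 1 = a + u + w := by omega
    rw [e3, Nat.add_div_right _ (by omega)]
  rw [hsum, C2b_gg w hw s]
  have h2 : ∑ t ∈ Finset.range s, (t / w + 1) =
      ∑ t ∈ Finset.range a, (t / w + 1) + ∑ u ∈ Finset.range n, ((a + u) / w + 1) +
        ∑ u ∈ Finset.range b, ((a + n + u) / w + 1) := by
    conv_lhs => rw [hs]
    rw [Finset.sum_range_add, Finset.sum_range_add]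
  rw [h2]
  have h3 := C2b_part w s 0 a hws (by omega)
  simp only [zero_add] at h3
  have h4 := C2b_part w s (a + n) b hws (by omega)
  have h5 : a * (2 * s) + b * (2 * s) = 4 * j0 * s := by
    rw [← Nat.add_mul, ← hb]
    ring
  generalize ∑ t ∈ Finset.range a, (t / w + 1) = X at h3 ⊢
  generalize ∑ u ∈ Finset.range n, ((a + u) / w + 1) = Y at ⊢
  generalize ∑ u ∈ Finset.range b, ((a + n + u) / w + 1) = Z at h4 ⊢
  have h6 : w * (1 + (X + Y + Z)) = w + w * Y + (w * X + w * Z) := by ring
  rw [h6]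
  omega

/-- `w gg w s ≤ w + 2 s^2` for `w ≤ s`: `gg w s - 1` is a sum of `s` terms `⌈i/w⌉ ≤ ⌈s/w⌉`,
`w ⌈s/w⌉ ≤ s + w - 1 ≤ 2 s`. -/
theorem gg_le (w s : ℕ) (hw : 1 ≤ w) (hws : w ≤ s) : w * gg w s ≤ w + 2 * s ^ 2 := by
  rw [C2b_gg w hw s, Nat.mul_add, mul_one]
  have h3 := C2b_part w s 0 s hws (by omega)
  simp only [zero_add] at h3
  have h5 : s * (2 * s) = 2 * s ^ 2 := by ring
  omega

end AM
end
end
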