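import Pool.Agent.Lib.MP_d3cc86_co.RG.KN1
import Pool.Agent.Lib.MP_d3cc86_co.RG.KNg
import Pool.Agent.Lib.MP_d3cc86_co.RG.A1a
import Pool.Agent.Lib.MP_d3cc86_co.Upper

/-!
All moduli (MP_d3cc86_co).  A *multiset* in a finite abelian group `G` is a function `μ : G → ℕ`;
`SM μ` is the set of its subset sums `∑ j x • x`, `0 ≤ j x ≤ μ x`.
-/

set_option autoImplicit false
set_option linter.unusedSectionVars false

open Finset Pointwise

namespace AM

open RG (stb mem_stb)
open Pool.Agent.Lib.MP_d3cc86_co (lam Asym symz)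

section
variable {G : Type} [AddCommGroup G] [Fintype G]

/-- The set of all sums `∑ j x • x`, `0 ≤ j x ≤ μ x`. -/
noncomputable def SM (μ : G → ℕ) : Finset G := RG.R (id : G → G) μ 0

/-- number of elements, with multiplicity -/
def tot (μ : G → ℕ) : ℕ := ∑ x, μ x

/-- asymmetric multiset: never `x` and `-x` (so not `0` and no element of order two) -/
def AS (μ : G → ℕ) : Prop := ∀ x, μ x ≠ 0 → μ (-x) = 0

open Classical in
/-- the support -/
noncomputable def sp (μ : G → ℕ) : Finset G := univ.filter (fun x => μ x ≠ 0)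

open Classical in
/-- a subgroup as a `Finset` -/
noncomputable def sf (H : AddSubgroup G) : Finset G := univ.filter (fun x => x ∈ H)

open Classical in
/-- the indicator function of a set -/
noncomputable def ind (V : Finset G) : G → ℕ := fun x => if x ∈ V then 1 else 0

open Classical in
/-- the part of `μ` inside `H` -/
noncomputable def res (H : AddSubgroup G) (μ : G → ℕ) : G → ℕ := fun x => if x ∈ H then μ x else 0

open Classical in
/-- `V` without the elements of `H` -/
noncomputable def off (V : Finset G) (H : AddSubgroup G) : Finset G := V.filter (fun x => x ∉ H)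

open Classical in
/-- one element `x` is removed -/
noncomputable def del (μ : G → ℕ) (x : G) : G → ℕ := fun y => if y = x then μ x - 1 else μ y

/-- every subgroup of order `< 2 |V|` (not containing `V`) misses at least `g` elements of `V` -/
def Thick (V : Finset G) (g : ℕ) : Prop :=
  g ≤ V.card ∧ ∀ H : AddSubgroup G, Nat.card H < 2 * V.card → ¬ (∀ v ∈ V, v ∈ H) →
    g ≤ (off V H).card

/-- `⌈(j - C) / w⌉` (natural subtraction) -/
def qq (C w j : ℕ) : ℕ := (j - C + w - 1) / w

lemma mem_sp (μ : G → ℕ) (x : G) : x ∈ sp μ ↔ μ x ≠ 0 := by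
  classical
  simp [sp]

lemma mem_sf (H : AddSubgroup G) (x : G) : x ∈ sf H ↔ x ∈ H := by
  classical
  simp [sf]

lemma mem_off (V : Finset G) (H : AddSubgroup G) (x : G) : x ∈ off V H ↔ x ∈ V ∧ x ∉ H := by
  classical
  simp [off]

lemma card_sf (H : AddSubgroup G) : (sf H).card = Nat.card H := by
  classical
  rw [Nat.card_eq_fintype_card, Fintype.card_subtype]
  rfl

lemma zero_mem_sf (H : AddSubgroup G) : (0 : G) ∈ sf H := (mem_sf H 0).2 H.zero_mem

lemma mem_SM (μ : G → ℕ) (t : G) : t ∈ SM μ ↔ ∃ j : G → ℕ, (∀ x, j x ≤ μ x) ∧ ∑ x, j x • x = t := by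
  unfold SM
  rw [RG.mem_R]
  constructor
  · rintro ⟨j, h1, h2, -⟩
    exact ⟨j, h1, h2⟩
  · rintro ⟨j, h1, h2⟩
    exact ⟨j, h1, h2, Nat.zero_le _⟩

lemma zero_mem_SM (μ : G → ℕ) : (0 : G) ∈ SM μ := (mem_SM μ 0).2 ⟨0, fun _ => Nat.zero_le _, by simp⟩

lemma SM_nonempty (μ : G → ℕ) : (SM μ).Nonempty := ⟨0, zero_mem_SM μ⟩

lemma SM_add [DecidableEq G] (μ ν : G → ℕ) : SM (μ + ν) = SM μ + SM ν := RG.R_add_eq _ _ _

lemma SM_mono {μ ν : G → ℕ} (h : ∀ x, μ x ≤ ν x) : SM μ ⊆ SM ν := RG.R_mono _ _ _ h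

lemma stb_mono {μ ν : G → ℕ} (h : ∀ x, μ x ≤ ν x) : stb (SM μ) ≤ stb (SM ν) := RG.stb_le _ _ _ h

/-- smaller multisets of aperiodic ones are aperiodic -/
lemma ap_mono {μ ν : G → ℕ} (h : ∀ x, μ x ≤ ν x) (hν : stb (SM ν) = ⊥) : stb (SM μ) = ⊥ :=
  le_bot_iff.1 (hν ▸ stb_mono h)

lemma SM_zero : SM (0 : G → ℕ) = {0} := by
  ext t
  rw [mem_SM, Finset.mem_singleton]
  constructor
  · rintro ⟨j, h1, rfl⟩
    exact Finset.sum_eq_zero fun x _ => by
      have := h1 x
      simp only [Pi.zero_apply, Nat.le_zero] at this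
      rw [this, zero_smul]
  · rintro rfl
    exact ⟨0, fun _ => le_rfl, by simp⟩

lemma SM_ind [DecidableEq G] (V : Finset G) : SM (ind V) = V.subsetSum := by
  classical
  ext t
  rw [mem_SM, Finset.mem_subsetSum_iff]
  constructor
  · rintro ⟨j, h1, rfl⟩
    refine ⟨univ.filter (fun x => j x ≠ 0), ?_, ?_⟩
    · intro x hx
      rw [Finset.mem_filter] at hx
      have := h1 x
      unfold ind at this
      by_contra hc
      rw [if_neg hc] at this
      exact hx.2 (Nat.le_zero.1 this)
    · rw [Finset.sum_filter]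
      refine Finset.sum_congr rfl fun x _ => ?_
      have := h1 x
      unfold ind at this
      by_cases h0 : j x = 0
      · simp [h0]
      · have h2 : j x ≤ 1 := by
          refine this.trans ?_
          split_ifs <;> omega
        have h3 : j x = 1 := by omega
        rw [h3]
        simp
  · rintro ⟨B, hB, rfl⟩
    refine ⟨fun x => if x ∈ B then 1 else 0, fun x => ?_, ?_⟩
    · show (if x ∈ B then 1 else 0) ≤ ind V x
      unfold ind
      by_cases h : x ∈ B
      · rw [if_pos h, if_pos (hB h)]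
      · rw [if_neg h]; exact Nat.zero_le _
    · have h1 : ∀ x : G, (if x ∈ B then 1 else 0 : ℕ) • x = if x ∈ B then x else 0 := by
        intro x
        split_ifs
        · exact one_smul _ _
        · exact zero_smul _ _
      rw [Finset.sum_congr rfl (fun x _ => h1 x), Finset.sum_ite_mem, Finset.univ_inter]

lemma SM_single [DecidableEq G] (x : G) : SM (Pi.single x 1 : G → ℕ) = {0, x} := by
  ext t
  rw [mem_SM, Finset.mem_insert, Finset.mem_singleton]
  constructor
  · rintro ⟨j, h1, rfl⟩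
    have h2 : ∑ y, j y • y = j x • x := by
      apply Finset.sum_eq_single x
      · intro y _ hy
        have := h1 y
        rw [Pi.single_eq_of_ne hy, Nat.le_zero] at this
        rw [this, zero_smul]
      · intro h; exact absurd (Finset.mem_univ x) h
    rw [h2]
    have h3 := h1 x
    rw [Pi.single_eq_same] at h3
    rcases Nat.le_one_iff_eq_zero_or_eq_one.1 h3 with h4 | h4
    · left; rw [h4, zero_smul]
    · right; rw [h4, one_smul]
  · rintro (rfl | rfl)
    · exact ⟨0, fun _ => Nat.zero_le _, by simp⟩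
    · refine ⟨Pi.single t 1, fun _ => le_rfl, ?_⟩
      rw [Finset.sum_eq_single t]
      · rw [Pi.single_eq_same, one_smul]
      · intro y _ hy
        rw [Pi.single_eq_of_ne hy, zero_smul]
      · intro h; exact absurd (Finset.mem_univ t) h

/-- all sums stay in a subgroup containing the support -/
lemma SM_sub {μ : G → ℕ} {H : AddSubgroup G} (h : ∀ x, μ x ≠ 0 → x ∈ H) : ∀ t ∈ SM μ, t ∈ H := by
  intro t ht
  obtain ⟨j, h1, rfl⟩ := (mem_SM μ t).1 ht
  refine H.sum_mem fun x _ => ?_
  by_cases h0 : j x = 0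
  · rw [h0, zero_smul]; exact H.zero_mem
  · refine H.nsmul_mem (h x ?_) _
    have := h1 x
    omega

lemma AS.zero {μ : G → ℕ} (h : AS μ) : μ 0 = 0 := by
  by_contra h0
  have := h 0 h0
  rw [neg_zero] at this
  exact h0 this

lemma AS.mono {μ ν : G → ℕ} (h : AS ν) (hle : ∀ x, μ x ≤ ν x) : AS μ := by
  intro x hx
  have h1 := hle x
  have h2 := hle (-x)
  have := h x (by omega)
  omega

lemma AS.asym {μ : G → ℕ} (h : AS μ) : Asym (sp μ) := by
  intro a ha hna
  rw [mem_sp] at ha hna
  exact hna (h a ha)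

lemma ind_le_sp {μ : G → ℕ} : ∀ x, ind (sp μ) x ≤ μ x := by
  classical
  intro x
  unfold ind
  split_ifs with h
  · rw [mem_sp] at h; omega
  · exact Nat.zero_le _

lemma ind_mono {V W : Finset G} (h : V ⊆ W) : ∀ x, ind V x ≤ ind W x := by
  classical
  intro x
  unfold ind
  split_ifs with h1 h2
  · exact le_rfl
  · exact absurd (h h1) h2
  · exact Nat.zero_le _
  · exact le_rfl

lemma res_le (H : AddSubgroup G) (μ : G → ℕ) : ∀ x, res H μ x ≤ μ x := by
  classical
  intro x
  unfold res
  split_ifs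
  · exact le_rfl
  · exact Nat.zero_le _

lemma tot_add (μ ν : G → ℕ) : tot (μ + ν) = tot μ + tot ν := by
  unfold tot
  rw [← Finset.sum_add_distrib]
  rfl

lemma tot_mono {μ ν : G → ℕ} (h : ∀ x, μ x ≤ ν x) : tot μ ≤ tot ν := Finset.sum_le_sum fun x _ => h x

lemma del_le (μ : G → ℕ) (x : G) : ∀ y, del μ x y ≤ μ y := by
  intro y
  unfold del
  split_ifs with h
  · rw [h]; omega
  · exact le_rfl

lemma del_add_single [DecidableEq G] (μ : G → ℕ) (x : G) (hx : μ x ≠ 0) :
    del μ x + Pi.single x 1 = μ := by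
  funext y
  unfold del
  rw [Pi.add_apply]
  split_ifs with h
  · rw [h, Pi.single_eq_same]; omega
  · rw [Pi.single_eq_of_ne h, add_zero]

lemma tot_single [DecidableEq G] (x : G) : tot (Pi.single x 1 : G → ℕ) = 1 := by
  unfold tot
  rw [Finset.sum_pi_single']
  simp

lemma tot_del (μ : G → ℕ) (x : G) (hx : μ x ≠ 0) : tot (del μ x) + 1 = tot μ := by
  classical
  rw [← tot_single x, ← tot_add, del_add_single μ x hx]

lemma tot_ind (V : Finset G) : tot (ind V) = V.card := by
  classical
  unfold tot ind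
  rw [Finset.sum_ite_mem, Finset.univ_inter, Finset.sum_const, smul_eq_mul, mul_one]

end

end AM
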