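import Pool.Agent.Lib.MP_d3cc86_co.FX.Defs
import Pool.Agent.Lib.MP_d3cc86_co.Upper
import Pool.Agent.Lib.MP_d3cc86_co.SP.N1
import Pool.Agent.Lib.MP_d3cc86_co.SP.U0

section

set_option autoImplicit false
set_option linter.unusedSectionVars false

open Finset Pointwise

namespace FX

open RG (stb mem_stb gg ph)
open SPR (T)
open AM
open Pool.Agent.Lib.MP_d3cc86_co (lam Asym symz)

variable {G Q : Type} [AddCommGroup G] [Fintype G] [AddCommGroup Q] [Fintype Q]

open Classical in
/-- the image of a multiset -/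
noncomputable def pf (φ : G →+ Q) (ν : G → ℕ) : Q → ℕ :=
  fun z => ∑ x ∈ univ.filter (fun x => φ x = z), ν x

open Classical in
/-- change signs: every element goes to the one of `± z` with property `P` -/
noncomputable def orient (P : Q → Prop) (κ : Q → ℕ) : Q → ℕ :=
  fun z => if P z then κ z + κ (-z) else 0

private lemma choose_le (ν : G → ℕ) (s : Finset G) : ∀ c : ℕ, c ≤ ∑ x ∈ s, ν x →
    ∃ j : G → ℕ, (∀ x, j x ≤ ν x) ∧ ∑ x ∈ s, j x = c := by
  classical
  induction s using Finset.induction_on with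
  | empty =>
    intro c hc
    refine ⟨0, fun x => Nat.zero_le _, ?_⟩
    rw [Finset.sum_empty] at hc ⊢
    omega
  | insert a s ha ih =>
    intro c hc
    rw [Finset.sum_insert ha] at hc
    obtain ⟨j, hj, hs⟩ := ih (min c (∑ x ∈ s, ν x)) (min_le_right _ _)
    refine ⟨fun x => if x = a then c - min c (∑ x ∈ s, ν x) else j x, fun x => ?_, ?_⟩
    · dsimp only
      split_ifs with h
      · rw [h]
        omega
      · exact hj x
    · rw [Finset.sum_insert ha, if_pos rfl]
      have : ∑ x ∈ s, (if x = a then c - min c (∑ x ∈ s, ν x) else j x) = ∑ x ∈ s, j x := by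
        refine Finset.sum_congr rfl fun x hx => ?_
        rw [if_neg]
        rintro rfl
        exact ha hx
      rw [this, hs]
      omega

/-- `⊇`: for `j ≤ ν` let `i z = ∑_{φ x = z} j x ≤ pf φ ν z`; `∑_z i z • z = ∑_x j x • φ x = φ (∑ j x • x)`
(`Finset.sum_fiberwise`).  `⊆`: for `i ≤ pf φ ν` choose for each `z` numbers `j x ≤ ν x` (`φ x = z`) with
sum `i z`: this is possible since `i z ≤ ∑_{φ x = z} ν x` (induction over a finset; a small private
lemma: `∀ s, c ≤ ∑ x ∈ s, ν x → ∃ j ≤ ν, ∑ x ∈ s, j x = c`). -/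
theorem SM_pf [DecidableEq Q] (φ : G →+ Q) (ν : G → ℕ) : SM (pf φ ν) = (SM ν).image φ := by
  classical
  ext t
  rw [mem_SM, Finset.mem_image]
  constructor
  · rintro ⟨i, hi, rfl⟩
    have hex : ∀ z : Q, ∃ j : G → ℕ, (∀ x, j x ≤ ν x) ∧
        ∑ x ∈ univ.filter (fun x => φ x = z), j x = i z := by
      intro z
      refine choose_le ν _ (i z) ?_
      have h1 := hi z
      unfold pf at h1
      convert h1
    choose j hj hs using hex
    refine ⟨∑ x, j (φ x) x • x, (mem_SM _ _).2 ⟨fun x => j (φ x) x, fun x => hj _ x, rfl⟩, ?_⟩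
    rw [map_sum, ← Finset.sum_fiberwise univ φ (fun x => φ (j (φ x) x • x))]
    refine Finset.sum_congr rfl fun z _ => ?_
    rw [← hs z, Finset.sum_smul]
    refine Finset.sum_congr rfl fun x hx => ?_
    rw [map_nsmul, (Finset.mem_filter.1 hx).2]
  · rintro ⟨_, h, rfl⟩
    obtain ⟨j, hj, rfl⟩ := (mem_SM _ _).1 h
    refine ⟨fun z => ∑ x ∈ univ.filter (fun x => φ x = z), j x, fun z => ?_, ?_⟩
    · unfold pf
      have : ∑ x ∈ univ.filter (fun x => φ x = z), j x ≤ ∑ x ∈ univ.filter (fun x => φ x = z), ν x :=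
        Finset.sum_le_sum fun x _ => hj x
      convert this
    · rw [map_sum, ← Finset.sum_fiberwise univ φ (fun x => φ (j x • x))]
      refine Finset.sum_congr rfl fun z _ => ?_
      rw [Finset.sum_smul]
      refine Finset.sum_congr rfl fun x hx => ?_
      rw [map_nsmul, (Finset.mem_filter.1 hx).2]

/-- `Finset.sum_fiberwise`. -/
theorem tot_pf (φ : G →+ Q) (ν : G → ℕ) : tot (pf φ ν) = tot ν := by
  classical
  unfold tot
  rw [← Finset.sum_fiberwise univ φ ν]
  refine Finset.sum_congr rfl fun z _ => ?_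
  unfold pf
  congr! 

/-- Pair `z` with `-z`: `∑_z κ z = ∑_{P z} (κ z + κ (-z))` since `κ z ≠ 0` implies `z + z ≠ 0`, so
exactly one of `z`, `-z` has the property `P`.  (`∑_z κ z = ∑_{P z} κ z + ∑_{¬ P z} κ z`; in the second
sum substitute `z = -y` (`Equiv.neg`): it is `∑_{¬ P (-y)} κ (-y)`, and for `κ (-y) ≠ 0` we have
`P y ↔ ¬ P (-y)`.) -/
theorem tot_orient (P : Q → Prop) (κ : Q → ℕ) (hP : ∀ x, x + x ≠ 0 → (P x ↔ ¬ P (-x)))
    (h0 : ∀ x, κ x ≠ 0 → x + x ≠ 0) : tot (orient P κ) = tot κ := by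
  classical
  unfold tot
  have h1 : ∀ z, orient P κ z = (if P z then κ z else 0) + (if P z then κ (-z) else 0) := by
    intro z
    unfold orient
    split_ifs <;> simp
  rw [Finset.sum_congr rfl fun z _ => h1 z, Finset.sum_add_distrib]
  have h2 : ∑ z, (if P z then κ (-z) else 0) = ∑ z, (if P (-z) then κ z else 0) := by
    rw [← Equiv.sum_comp (Equiv.neg Q)]
    refine Finset.sum_congr rfl fun z _ => ?_
    simp
  rw [h2, ← Finset.sum_add_distrib]
  refine Finset.sum_congr rfl fun z _ => ?_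
  by_cases hz : κ z = 0
  · simp [hz]
  · have := hP z (h0 z hz)
    by_cases h3 : P z
    · rw [if_pos h3, if_neg (this.1 h3), add_zero]
    · rw [if_neg h3, if_pos (by_contra fun h4 => h3 (this.2 h4)), zero_add]

/-- `orient P κ x ≠ 0` gives `P x` and (`κ x ≠ 0` or `κ (-x) ≠ 0`) so `x + x ≠ 0`, hence `¬ P (-x)`. -/
theorem AS_orient (P : Q → Prop) (κ : Q → ℕ) (hP : ∀ x, x + x ≠ 0 → (P x ↔ ¬ P (-x)))
    (h0 : ∀ x, κ x ≠ 0 → x + x ≠ 0) : AS (orient P κ) := by
  classical
  intro x hx
  unfold orient at hx ⊢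
  by_cases h1 : P x
  · rw [if_pos h1] at hx
    have h2 : x + x ≠ 0 := by
      by_cases h3 : κ x = 0
      · have h4 : κ (-x) ≠ 0 := by omega
        have h5 := h0 _ h4
        intro h6
        apply h5
        rw [← neg_add, h6, neg_zero]
      · exact h0 x h3
    rw [if_neg ((hP x h2).1 h1)]
  · rw [if_neg h1] at hx
    exact absurd rfl hx

/-- the key computation -/
private lemma key_orient (P : Q → Prop) (κ : Q → ℕ) [DecidablePred P]
    (hP : ∀ x, x + x ≠ 0 → (P x ↔ ¬ P (-x))) (h0 : ∀ x, κ x ≠ 0 → x + x ≠ 0) (j : Q → ℕ)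
    (hj : ∀ x, j x ≤ κ x) :
    ∑ z, (if P z then j z + (κ (-z) - j (-z)) else 0) • z =
      ∑ z, (if P z then κ (-z) • z else 0) + ∑ z, j z • z := by
  have e1 : ∀ z, (if P z then j z + (κ (-z) - j (-z)) else 0) • z =
      (if P z then κ (-z) • z else 0) + ((if P z then j z • z else 0) +
        (if P z then j (-z) • (-z) else 0)) := by
    intro z
    split_ifs
    · rw [add_nsmul, sub_nsmul _ (hj (-z)), smul_neg]
      abel
    · simp
  rw [Finset.sum_congr rfl fun z _ => e1 z, Finset.sum_add_distrib, Finset.sum_add_distrib]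
  congr 1
  have h2 : ∑ z, (if P z then j (-z) • (-z) else 0) = ∑ z, (if P (-z) then j z • z else 0) := by
    rw [← Equiv.sum_comp (Equiv.neg Q)]
    refine Finset.sum_congr rfl fun z _ => ?_
    simp
  rw [h2, ← Finset.sum_add_distrib]
  refine Finset.sum_congr rfl fun z _ => ?_
  by_cases hz : j z = 0
  · simp [hz]
  · have h5 : κ z ≠ 0 := by
      have := hj z
      omega
    have := hP z (h0 z h5)
    by_cases h3 : P z
    · rw [if_pos h3, if_neg (this.1 h3), add_zero]
    · rw [if_neg h3, if_pos (by_contra fun h4 => h3 (this.2 h4)), zero_add]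

/-- Changing signs translates `SM`.  Let `c = ∑_{P x} κ (-x) • x`.  For `j ≤ κ` let
`j' x = j x + (κ (-x) - j (-x))` if `P x`, `0` otherwise; `j' ≤ orient P κ` and
`∑ j' x • x = c + ∑_{P x} (j x • x - j (-x) • x) = c + ∑ j x • x` (for `x` with `¬ P x` and `j x ≠ 0` we have
`P (-x)`; substitute `x ↦ -x`).  So `c + SM κ ⊆ SM (orient P κ)`.  Conversely for `j' ≤ orient P κ` and
`P x` write `j' x = a x + b x` with `a x = min (j' x) (κ x) ≤ κ x`, `b x = j' x - a x ≤ κ (-x)`, and put
`j x = a x` if `P x`, `j x = κ x - b (-x)` if `¬ P x` and `P (-x)`, and `0` otherwise.  Alternative proof: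
induction on `tot κ` (remove one element), or `SM_cnt` and `FS_flip` from `AM/Q0.lean` (write `κ = cnt f`
with `ι = {p : Q × ℕ // p.2 < κ p.1}`-like index type, `f = fst`; then `orient P κ = cnt f'` with
`f' i = f i` if `P (f i)` and `- f i` otherwise). -/
theorem SM_orient [DecidableEq Q] (P : Q → Prop) (κ : Q → ℕ)
    (hP : ∀ x, x + x ≠ 0 → (P x ↔ ¬ P (-x))) (h0 : ∀ x, κ x ≠ 0 → x + x ≠ 0) :
    ∃ c : Q, SM (orient P κ) = c +ᵥ SM κ := by
  classical
  refine ⟨∑ z, (if P z then κ (-z) • z else 0), ?_⟩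
  ext t
  rw [Finset.mem_vadd_finset, mem_SM]
  have hor : ∀ z, orient P κ z = if P z then κ z + κ (-z) else 0 := by
    intro z
    unfold orient
    congr!
  constructor
  · rintro ⟨j', hj', rfl⟩
    -- the decomposition
    set j : Q → ℕ := fun z => if P z then min (j' z) (κ z) else
      κ z - (j' (-z) - min (j' (-z)) (κ (-z))) with hjd
    have hjk : ∀ z, j z ≤ κ z := by
      intro z
      rw [hjd]
      dsimp only
      split_ifs <;> omega
    refine ⟨∑ z, j z • z, (mem_SM _ _).2 ⟨j, hjk, rfl⟩, ?_⟩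
    rw [vadd_eq_add, ← key_orient P κ hP h0 j hjk]
    refine Finset.sum_congr rfl fun z _ => ?_
    congr 1
    have h1 := hj' z
    rw [hor] at h1
    by_cases h3 : P z
    · rw [if_pos h3] at h1 ⊢
      have h4 : j z = min (j' z) (κ z) := by rw [hjd]; exact if_pos h3
      by_cases h5 : κ (-z) = 0
      · have h6 := hjk (-z)
        omega
      · have h6 : (-z) + (-z) ≠ 0 := h0 _ h5
        have h7 : ¬ P (-z) := by
          intro h8
          have h9 := (hP _ h6).1 h8
          rw [neg_neg] at h9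
          exact h9 h3
        have h8 : j (-z) = κ (-z) - (j' (- -z) - min (j' (- -z)) (κ (- -z))) := by
          rw [hjd]; exact if_neg h7
        rw [neg_neg] at h8
        omega
    · rw [if_neg h3] at h1 ⊢
      omega
  · rintro ⟨_, h, rfl⟩
    obtain ⟨j, hj, rfl⟩ := (mem_SM _ _).1 h
    refine ⟨fun z => if P z then j z + (κ (-z) - j (-z)) else 0, fun z => ?_, ?_⟩
    · rw [hor]
      dsimp only
      have := hj z
      split_ifs <;> omega
    · rw [vadd_eq_add]
      exact key_orient P κ hP h0 j hj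

end FX
end

section

set_option autoImplicit false
set_option linter.unusedSectionVars false

open Finset Pointwise

namespace FX

open RG (stb mem_stb gg ph)
open SPR (T)
open AM
open Pool.Agent.Lib.MP_d3cc86_co (lam Asym symz)

section
variable {G : Type} [AddCommGroup G] [Fintype G]

/-- the subgroup generated by `K` and `l` -/
def Dd (K : AddSubgroup G) (l : G) : AddSubgroup G := K ⊔ AddSubgroup.zmultiples l

/-- the order of `l` modulo `K` -/
noncomputable def per (K : AddSubgroup G) (l : G) : ℕ :=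
  addOrderOf (QuotientAddGroup.mk l : G ⧸ K)

/-- the position of `x`: the least `i` with `x - i l ∈ K` -/
noncomputable def ps (K : AddSubgroup G) (l : G) (x : G) : ℕ := sInf {i : ℕ | x - i • l ∈ K}

/-- the sum of the positions -/
noncomputable def wt (K : AddSubgroup G) (l : G) (ν : G → ℕ) : ℕ := ∑ x, ν x * ps K l x

open Classical in
/-- the part of `μ` in the columns `0, …, T` -/
noncomputable def low (K : AddSubgroup G) (l : G) (μ : G → ℕ) (T : ℕ) : G → ℕ :=
  fun x => if x ∈ Dd K l ∧ ps K l x ≤ T then μ x else 0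

/-- column `i` lies completely in the support of `μ` -/
def gc (K : AddSubgroup G) (l : G) (μ : G → ℕ) (i : ℕ) : Prop := ∀ κ ∈ K, μ (κ + i • l) ≠ 0

open Classical in
/-- the number of columns `1 ≤ i ≤ T` which are not completely in the support -/
noncomputable def nb (K : AddSubgroup G) (l : G) (μ : G → ℕ) (T : ℕ) : ℕ :=
  ((Icc 1 T).filter (fun i => ¬ gc K l μ i)).card

/-- the columns `a, …, b` lie completely in `Y` -/
def Full (K : AddSubgroup G) (l : G) (Y : Finset G) (a b : ℕ) : Prop :=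
  ∀ i, a ≤ i → i ≤ b → ∀ κ ∈ K, κ + i • l ∈ Y

variable (K : AddSubgroup G) (l : G)

/-- `G ⧸ K` is finite. -/
theorem per_pos : 1 ≤ per K l := by
  exact addOrderOf_pos _

/-- `addOrderOf_dvd_iff_nsmul_eq_zero`, `QuotientAddGroup.eq_zero_iff`. -/
theorem nsmul_mem_iff (i : ℕ) : i • l ∈ K ↔ per K l ∣ i := by
  unfold per
  rw [addOrderOf_dvd_iff_nsmul_eq_zero, ← QuotientAddGroup.mk_nsmul, QuotientAddGroup.eq_zero_iff]

/-- `x = (x - i l) + i l`. -/
theorem mem_Dd_of {x : G} {i : ℕ} (h : x - i • l ∈ K) : x ∈ Dd K l := by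
  have h1 : x - i • l ∈ Dd K l := AddSubgroup.mem_sup_left h
  have h2 : i • l ∈ Dd K l :=
    AddSubgroup.mem_sup_right (AddSubgroup.nsmul_mem _ (AddSubgroup.mem_zmultiples l) i)
  have h3 := (Dd K l).add_mem h1 h2
  rwa [sub_add_cancel] at h3

/-- also with the other sign -/
theorem mem_Dd_of' {x : G} {i : ℕ} (h : x + i • l ∈ K) : x ∈ Dd K l := by
  have h1 : x + i • l ∈ Dd K l := AddSubgroup.mem_sup_left h
  have h2 : i • l ∈ Dd K l :=
    AddSubgroup.mem_sup_right (AddSubgroup.nsmul_mem _ (AddSubgroup.mem_zmultiples l) i)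
  have h3 := (Dd K l).sub_mem h1 h2
  rwa [add_sub_cancel_right] at h3

/-- The set `{i | x - i l ∈ K}` is nonempty: `x = κ + j l`, `j : ℤ`; replace `j` by `j` modulo `per`. -/
theorem ps_spec {x : G} (h : x ∈ Dd K l) : x - ps K l x • l ∈ K := by
  unfold Dd at h
  obtain ⟨κ, hκ, y, hy, hxy⟩ := AddSubgroup.mem_sup.1 h
  obtain ⟨j, hj⟩ := AddSubgroup.mem_zmultiples_iff.1 hy
  have hp : (0 : ℤ) < (per K l : ℤ) := by exact_mod_cast per_pos K l
  have hne : {i : ℕ | x - i • l ∈ K}.Nonempty := by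
    refine ⟨(j % (per K l : ℤ)).toNat, ?_⟩
    have h0 : ((j % (per K l : ℤ)).toNat : ℤ) = j % (per K l : ℤ) :=
      Int.toNat_of_nonneg (Int.emod_nonneg _ (ne_of_gt hp))
    have h1 : per K l • l ∈ K := (nsmul_mem_iff K l _).2 dvd_rfl
    have h2 : (j / (per K l : ℤ)) • (per K l • l) ∈ K := K.zsmul_mem h1 _
    have h3 : j • l = (j / (per K l : ℤ)) • (per K l • l) + (j % (per K l : ℤ)).toNat • l := by
      rw [← natCast_zsmul l (per K l), ← natCast_zsmul l ((j % (per K l : ℤ)).toNat), h0, ← mul_zsmul,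
        ← add_zsmul]
      congr 1
      rw [mul_comm]
      exact (Int.mul_ediv_add_emod j _).symm
    have h4 : x - (j % (per K l : ℤ)).toNat • l = κ + (j / (per K l : ℤ)) • (per K l • l) := by
      rw [← hxy, ← hj, h3]
      abel
    rw [Set.mem_ofPred_eq, h4]
    exact K.add_mem hκ h2
  exact Nat.sInf_mem hne

/-- Otherwise `ps x - per` would be smaller. -/
theorem ps_lt {x : G} (h : x ∈ Dd K l) : ps K l x < per K l := by
  by_contra hc
  push Not at hc
  have h1 := ps_spec K l h
  have h2 : per K l • l ∈ K := (nsmul_mem_iff K l _).2 dvd_rfl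
  have h3 : x - (ps K l x - per K l) • l ∈ K := by
    have h4 : x - (ps K l x - per K l) • l = (x - ps K l x • l) + per K l • l := by
      have h5 : ps K l x • l = (ps K l x - per K l) • l + per K l • l := by
        rw [← add_nsmul, Nat.sub_add_cancel hc]
      rw [h5]
      abel
    rw [h4]
    exact K.add_mem h1 h2
  have h5 : ps K l x ≤ ps K l x - per K l := Nat.sInf_le h3
  have h6 := per_pos K l
  omega

/-- `ps x ≤ i` by minimality and `(i - ps x) l ∈ K`, so `per ∣ i - ps x < per`. -/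
theorem ps_eq {x : G} {i : ℕ} (h : x - i • l ∈ K) (hi : i < per K l) : ps K l x = i := by
  have h1 : ps K l x ≤ i := Nat.sInf_le h
  have h2 := ps_spec K l (mem_Dd_of K l h)
  have h3 : (i - ps K l x) • l ∈ K := by
    have h4 : (i - ps K l x) • l = (x - ps K l x • l) - (x - i • l) := by
      have h5 : i • l = (i - ps K l x) • l + ps K l x • l := by
        rw [← add_nsmul, Nat.sub_add_cancel h1]
      rw [h5]
      abel
    rw [h4]
    exact K.sub_mem h2 h
  have h4 := (nsmul_mem_iff K l _).1 h3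
  rcases Nat.eq_zero_or_pos (i - ps K l x) with h5 | h5
  · omega
  · have h6 := Nat.le_of_dvd h5 h4
    omega

/-- `-x - (per - ps x) l ∈ K` and `per - ps x < per`. -/
theorem ps_neg {x : G} (h : x ∈ Dd K l) (h0 : ps K l x ≠ 0) :
    ps K l (-x) = per K l - ps K l x := by
  have h1 := ps_spec K l h
  have h2 := ps_lt K l h
  have h3 : per K l • l ∈ K := (nsmul_mem_iff K l _).2 dvd_rfl
  apply ps_eq K l
  · have h4 : -x - (per K l - ps K l x) • l = -(x - ps K l x • l) - per K l • l := by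
      have h5 : per K l • l = (per K l - ps K l x) • l + ps K l x • l := by
        rw [← add_nsmul, Nat.sub_add_cancel h2.le]
      rw [h5]
      abel
    rw [h4]
    exact K.sub_mem (K.neg_mem h1) h3
  · omega

theorem ps_zero_iff {x : G} (h : x ∈ Dd K l) : ps K l x = 0 ↔ x ∈ K := by
  constructor
  · intro h0
    have h1 := ps_spec K l h
    rwa [h0, zero_nsmul, sub_zero] at h1
  · intro h0
    have h1 : ps K l x ≤ 0 := Nat.sInf_le (by rw [Set.mem_ofPred_eq, zero_nsmul, sub_zero]; exact h0)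
    omega

/-- `K × {0, …, per - 1} → Dd`, `(κ, i) ↦ κ + i l`, is a bijection. -/
theorem card_Dd : Nat.card (Dd K l) = per K l * Nat.card K := by
  have hmem : ∀ p : K × Fin (per K l), (p.1 : G) + (p.2 : ℕ) • l ∈ Dd K l := by
    intro p
    apply mem_Dd_of K l (i := (p.2 : ℕ))
    rw [add_sub_cancel_right]
    exact p.1.2
  have hps : ∀ p : K × Fin (per K l), ps K l ((p.1 : G) + (p.2 : ℕ) • l) = (p.2 : ℕ) := by
    intro p
    apply ps_eq K l _ p.2.2
    rw [add_sub_cancel_right]
    exact p.1.2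
  let f : K × Fin (per K l) → Dd K l := fun p => ⟨(p.1 : G) + (p.2 : ℕ) • l, hmem p⟩
  have hf : Function.Bijective f := by
    constructor
    · intro p q hpq
      have h1 : (p.1 : G) + (p.2 : ℕ) • l = (q.1 : G) + (q.2 : ℕ) • l := congrArg Subtype.val hpq
      have h2 : (p.2 : ℕ) = (q.2 : ℕ) := by rw [← hps p, ← hps q, h1]
      rw [h2] at h1
      have h3 : (p.1 : G) = (q.1 : G) := add_right_cancel h1
      exact Prod.ext (Subtype.ext h3) (Fin.ext h2)
    · rintro ⟨x, hx⟩
      refine ⟨(⟨x - ps K l x • l, ps_spec K l hx⟩, ⟨ps K l x, ps_lt K l hx⟩), ?_⟩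
      apply Subtype.ext
      change (x - ps K l x • l) + ps K l x • l = x
      rw [sub_add_cancel]
  rw [← Nat.card_congr (Equiv.ofBijective f hf), Nat.card_prod, Nat.card_fin, mul_comm]

/-- The sum of the positions is the position of the sum: `(∑ ν x • x) - wt ν • l ∈ K`, if `ν` lives on `Dd`. -/
theorem wt_spec (ν : G → ℕ) (hν : ∀ x, ν x ≠ 0 → x ∈ Dd K l) :
    (∑ x, ν x • x) - wt K l ν • l ∈ K := by
  have h1 : (∑ x, ν x • x) - wt K l ν • l = ∑ x, ν x • (x - ps K l x • l) := by
    unfold wt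
    rw [← Finset.sum_nsmul_assoc, ← Finset.sum_sub_distrib]
    apply Finset.sum_congr rfl
    intro x _
    rw [nsmul_sub, ← mul_nsmul', mul_comm]
  rw [h1]
  apply AddSubgroup.sum_mem
  intro x _
  by_cases h : ν x = 0
  · rw [h, zero_nsmul]
    exact K.zero_mem
  · exact AddSubgroup.nsmul_mem _ (ps_spec K l (hν x h)) _

theorem wt_add (ν ρ : G → ℕ) : wt K l (ν + ρ) = wt K l ν + wt K l ρ := by
  unfold wt
  rw [← Finset.sum_add_distrib]
  apply Finset.sum_congr rfl
  intro x _
  rw [Pi.add_apply, add_mul]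

end

end FX
end

section

section

set_option autoImplicit false
set_option linter.unusedSectionVars false

open Finset Pointwise

namespace FX

open SPR (T)

/-! Index sets: the pair `(i, j)` stands for the number `i + j k`. -/

private def P0 (t : ℕ) : Finset (ℕ × ℕ) := {0} ×ˢ Finset.Icc 1 t

private def P1 (Q h : ℕ) : Finset (ℕ × ℕ) := Finset.Icc 1 Q ×ˢ Finset.range h

private def ff (k : ℕ) (p : ℕ × ℕ) : ℕ := p.1 + p.2 * k

private lemma mem_P0 {t : ℕ} {p : ℕ × ℕ} : p ∈ P0 t ↔ p.1 = 0 ∧ 1 ≤ p.2 ∧ p.2 ≤ t := by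
  rw [P0, Finset.mem_product, Finset.mem_singleton, Finset.mem_Icc]

private lemma mem_P1 {Q h : ℕ} {p : ℕ × ℕ} :
    p ∈ P1 Q h ↔ (1 ≤ p.1 ∧ p.1 ≤ Q) ∧ p.2 < h := by
  rw [P1, Finset.mem_product, Finset.mem_Icc, Finset.mem_range]

private lemma ff_inj {k : ℕ} {p q : ℕ × ℕ} (hp : p.1 < k) (hq : q.1 < k) (h : ff k p = ff k q) :
    p = q := by
  unfold ff at h
  have h1 : p.1 = q.1 := by
    have h2 := congrArg (· % k) h
    simp only [Nat.add_mul_mod_self_right] at h2
    rwa [Nat.mod_eq_of_lt hp, Nat.mod_eq_of_lt hq] at h2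
  have h2 : p.2 * k = q.2 * k := by omega
  have h3 : p.2 = q.2 := Nat.eq_of_mul_eq_mul_right (by omega) h2
  exact Prod.ext h1 h3

private lemma P_disj (t Q h : ℕ) : Disjoint (P0 t) (P1 Q h) := by
  rw [Finset.disjoint_left]
  intro p h0 h1
  rw [mem_P0] at h0
  rw [mem_P1] at h1
  omega

private lemma gauss (t : ℕ) : ∑ j ∈ Finset.Icc 1 t, j = t * (t + 1) / 2 := by
  have h : ∀ t : ℕ, 2 * ∑ j ∈ Finset.Icc 1 t, j = t * (t + 1) := by
    intro t
    induction t with
    | zero => simp
    | succ t ih => rw [Finset.sum_Icc_succ_top (by omega), mul_add, ih]; ring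
  have := h t
  omega

private lemma sum_P0_fst (t : ℕ) : ∑ p ∈ P0 t, p.1 = 0 := by
  apply Finset.sum_eq_zero
  intro p hp
  exact (mem_P0.1 hp).1

private lemma sum_P0_snd (t : ℕ) : ∑ p ∈ P0 t, p.2 = t * (t + 1) / 2 := by
  rw [P0, Finset.sum_product, Finset.sum_singleton]
  exact gauss t

private lemma sum_P1_fst (Q h : ℕ) : ∑ p ∈ P1 Q h, p.1 = h * (Q * (Q + 1) / 2) := by
  rw [P1, Finset.sum_product]
  simp only [Finset.sum_const, Finset.card_range, smul_eq_mul]
  rw [← Finset.mul_sum, gauss]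

private lemma key (n k h t Q : ℕ) (hk : n = h * k) (hh : h = 2 * t + 1) (ht : 1 ≤ t) (hQ : 1 ≤ Q)
    (h2 : 2 * Q < k) :
    ∃ A : Finset (ZMod n), A.card = h * Q + t ∧ (∀ a ∈ A, -a ∉ A) ∧
      A.subsetSum.card ≤
        2 * (t * (t + 1) / 2 + 1) + (h * (Q * (Q + 1) / 2) - 1) * h := by
  classical
  have hk0 : 0 < k := by omega
  have hh0 : 0 < h := by omega
  have hn : 0 < n := by rw [hk]; exact Nat.mul_pos hh0 hk0
  haveI : NeZero n := ⟨hn.ne'⟩
  set P : Finset (ℕ × ℕ) := P0 t ∪ P1 Q h with hP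
  have hP1k : ∀ p ∈ P, p.1 ≤ Q ∧ p.2 < h ∧ (p.1 = 0 → 1 ≤ p.2 ∧ p.2 ≤ t) := by
    intro p hp
    rw [hP, Finset.mem_union, mem_P0, mem_P1] at hp
    omega
  have hlt : ∀ p ∈ P, 0 < ff k p ∧ ff k p < n := by
    intro p hp
    obtain ⟨h3, h4, h5⟩ := hP1k p hp
    unfold ff
    constructor
    · rcases Nat.eq_zero_or_pos p.1 with h6 | h6
      · have := Nat.mul_pos (show 0 < p.2 by have := h5 h6; omega) hk0
        omega
      · omega
    · have h6 : (p.2 + 1) * k ≤ h * k := Nat.mul_le_mul_right k (by omega)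
      rw [add_mul, one_mul] at h6
      rw [hk]
      omega
  have hinj : Set.InjOn (ff k) (P : Set (ℕ × ℕ)) := by
    intro p hp q hq hpq
    have h3 := hP1k p hp
    have h4 := hP1k q hq
    exact ff_inj (by omega) (by omega) hpq
  obtain ⟨hc, ha⟩ := Pool.Agent.Lib.MP_d3cc86_co.reps hn (P.image (ff k)) (by
    intro r hr
    rw [Finset.mem_image] at hr
    obtain ⟨p, hp, rfl⟩ := hr
    exact hlt p hp) (by
    intro r hr s hs hrs
    rw [Finset.mem_image] at hr hs
    obtain ⟨p, hp, rfl⟩ := hr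
    obtain ⟨q, hq, rfl⟩ := hs
    obtain ⟨h3, h4, h5⟩ := hP1k p hp
    obtain ⟨h3', h4', h5'⟩ := hP1k q hq
    unfold ff at hrs
    have e1 : (p.1 + p.2 * k + (q.1 + q.2 * k)) % k = (p.1 + q.1) % k := by
      have : p.1 + p.2 * k + (q.1 + q.2 * k) = (p.1 + q.1) + (p.2 + q.2) * k := by ring
      rw [this, Nat.add_mul_mod_self_right]
    rw [hrs, hk, Nat.mul_mod_left, Nat.mod_eq_of_lt (by omega)] at e1
    have h6 : p.1 = 0 := by omega
    have h7 : q.1 = 0 := by omega
    have h8 := h5 h6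
    have h9 := h5' h7
    have h10 : (p.2 + q.2) * k = h * k := by
      rw [← hk, ← hrs, h6, h7]
      ring
    have h11 := Nat.eq_of_mul_eq_mul_right hk0 h10
    omega)
  set A : Finset (ZMod n) := (P.image (ff k)).image (fun r : ℕ => (r : ZMod n)) with hA
  refine ⟨A, ?_, ha, ?_⟩
  · rw [hc, Finset.card_image_of_injOn hinj, hP, Finset.card_union_of_disjoint (P_disj t Q h), P0, P1,
      Finset.card_product, Finset.card_product, Finset.card_singleton, Nat.card_Icc, Nat.card_Icc,
      Finset.card_range]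
    have : (Q + 1 - 1) * h = h * Q := by rw [Nat.add_sub_cancel, mul_comm]
    rw [this]
    omega
  · set M : ℕ := h * (Q * (Q + 1) / 2) with hPi
    set κ1 : ℕ := ∑ p ∈ P1 Q h, p.2 with hκ1
    set S0 : Finset (ZMod n) :=
      (Finset.range (t * (t + 1) / 2 + 1)).image (fun j : ℕ => ((j * k : ℕ) : ZMod n)) with hS0
    set S1 : Finset (ZMod n) :=
      (Finset.range (t * (t + 1) / 2 + 1)).image (fun j : ℕ => ((M + (κ1 + j) * k : ℕ) : ZMod n))
      with hS1
    set S2 : Finset (ZMod n) :=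
      (Finset.Icc 1 (M - 1) ×ˢ Finset.range h).image (fun p : ℕ × ℕ => ((ff k p : ℕ) : ZMod n))
      with hS2
    have hsub : A.subsetSum ⊆ (S0 ∪ S1) ∪ S2 := by
      intro x hx
      rw [Finset.mem_subsetSum_iff] at hx
      obtain ⟨B, hB, rfl⟩ := hx
      rw [hA, Finset.image_image, Finset.subset_image_iff] at hB
      obtain ⟨B', hB', rfl⟩ := hB
      have hinj2 : Set.InjOn ((fun r : ℕ => (r : ZMod n)) ∘ ff k) (P : Set (ℕ × ℕ)) := by
        intro p hp q hq hpq
        apply hinj hp hq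
        have h3 := (hlt p hp).2
        have h4 := (hlt q hq).2
        have h5 : ((ff k p : ℕ) : ZMod n) = ((ff k q : ℕ) : ZMod n) := hpq
        rw [ZMod.natCast_eq_natCast_iff'] at h5
        rwa [Nat.mod_eq_of_lt h3, Nat.mod_eq_of_lt h4] at h5
      rw [Finset.sum_image (fun p hp q hq hpq => hinj2 (hB' hp) (hB' hq) hpq)]
      have hval : ∑ p ∈ B', ((fun r : ℕ => (r : ZMod n)) ∘ ff k) p =
          ((∑ p ∈ B', p.1 + (∑ p ∈ B', p.2) * k : ℕ) : ZMod n) := by
        simp only [Function.comp, ff]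
        rw [← Nat.cast_sum, Finset.sum_add_distrib, Finset.sum_mul]
      rw [hval]
      set ρ := ∑ p ∈ B', p.1 with hρ
      set κ := ∑ p ∈ B', p.2 with hκ
      have hsplit : B' = (B' ∩ P0 t) ∪ (B' ∩ P1 Q h) := by
        rw [← Finset.inter_union_distrib_left, ← hP, Finset.inter_eq_left.2 hB']
      have hdis : Disjoint (B' ∩ P0 t) (B' ∩ P1 Q h) :=
        (P_disj t Q h).mono Finset.inter_subset_right Finset.inter_subset_right
      have hρ2 : ρ = ∑ p ∈ B' ∩ P1 Q h, p.1 := by
        rw [hρ]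
        conv_lhs => rw [hsplit]
        rw [Finset.sum_union hdis]
        have : ∑ p ∈ B' ∩ P0 t, p.1 = 0 := by
          apply Finset.sum_eq_zero
          intro p hp
          exact (mem_P0.1 (Finset.mem_inter.1 hp).2).1
        rw [this, zero_add]
      have hκ2 : κ = ∑ p ∈ B' ∩ P0 t, p.2 + ∑ p ∈ B' ∩ P1 Q h, p.2 := by
        rw [hκ]
        conv_lhs => rw [hsplit]
        rw [Finset.sum_union hdis]
      have hκ3 : ∑ p ∈ B' ∩ P0 t, p.2 ≤ t * (t + 1) / 2 := by
        rw [← sum_P0_snd]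
        exact Finset.sum_le_sum_of_subset Finset.inter_subset_right
      have hρle : ρ ≤ M := by
        rw [hρ2, hPi, ← sum_P1_fst]
        exact Finset.sum_le_sum_of_subset Finset.inter_subset_right
      rcases Nat.eq_zero_or_pos ρ with h0 | h0
      · -- ρ = 0
        have he : B' ∩ P1 Q h = ∅ := by
          rw [Finset.eq_empty_iff_forall_notMem]
          intro p hp
          have h3 : p.1 ≤ ρ := by
            rw [hρ2]
            exact Finset.single_le_sum (f := fun p : ℕ × ℕ => p.1) (fun _ _ => Nat.zero_le _) hp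
          have h4 := mem_P1.1 (Finset.mem_inter.1 hp).2
          omega
        rw [he, Finset.sum_empty, add_zero] at hκ2
        apply Finset.mem_union_left
        apply Finset.mem_union_left
        rw [hS0, Finset.mem_image]
        refine ⟨κ, ?_, ?_⟩
        · rw [Finset.mem_range]
          omega
        · rw [h0, zero_add]
      · rcases Nat.lt_or_ge ρ M with h1 | h1
        · -- middle
          apply Finset.mem_union_right
          rw [hS2, Finset.mem_image]
          refine ⟨(ρ, κ % h), ?_, ?_⟩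
          · rw [Finset.mem_product, Finset.mem_Icc, Finset.mem_range]
            exact ⟨⟨h0, by show ρ ≤ M - 1; omega⟩, Nat.mod_lt _ hh0⟩
          · unfold ff
            rw [ZMod.natCast_eq_natCast_iff]
            show ρ + κ % h * k ≡ ρ + κ * k [MOD n]
            apply Nat.ModEq.add_left
            rw [hk]
            exact (Nat.mod_modEq κ h).mul_right' k
        · -- ρ = M
          have hall : P1 Q h ⊆ B' := by
            intro p hp
            by_contra hpB
            have h3 : B' ∩ P1 Q h ⊆ (P1 Q h).erase p := by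
              intro q hq
              rw [Finset.mem_erase]
              refine ⟨?_, (Finset.mem_inter.1 hq).2⟩
              rintro rfl
              exact hpB (Finset.mem_inter.1 hq).1
            have h4 : ρ ≤ ∑ q ∈ (P1 Q h).erase p, q.1 := by
              rw [hρ2]
              exact Finset.sum_le_sum_of_subset h3
            have h5 := Finset.add_sum_erase (P1 Q h) (fun q : ℕ × ℕ => q.1) hp
            rw [sum_P1_fst] at h5
            have h6 := (mem_P1.1 hp).1.1
            omega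
          have he : B' ∩ P1 Q h = P1 Q h := Finset.inter_eq_right.2 hall
          rw [he, ← hκ1] at hκ2
          apply Finset.mem_union_left
          apply Finset.mem_union_right
          rw [hS1, Finset.mem_image]
          refine ⟨∑ p ∈ B' ∩ P0 t, p.2, ?_, ?_⟩
          · rw [Finset.mem_range]
            omega
          · have h7 : ρ = M := by omega
            rw [h7, hκ2, add_comm κ1]
    calc A.subsetSum.card ≤ ((S0 ∪ S1) ∪ S2).card := Finset.card_le_card hsub
      _ ≤ (S0 ∪ S1).card + S2.card := Finset.card_union_le _ _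
      _ ≤ (S0.card + S1.card) + S2.card := Nat.add_le_add_right (Finset.card_union_le _ _) _
      _ ≤ ((t * (t + 1) / 2 + 1) + (t * (t + 1) / 2 + 1)) + (M - 1) * h := by
          refine Nat.add_le_add (Nat.add_le_add ?_ ?_) ?_
          · exact Finset.card_image_le.trans (by rw [Finset.card_range])
          · exact Finset.card_image_le.trans (by rw [Finset.card_range])
          · refine Finset.card_image_le.trans ?_
            rw [Finset.card_product, Finset.card_range, Nat.card_Icc]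
            simp
      _ = _ := by ring

/-- The exceptional set for `3 ∣ n`.  `n = 3 k`, `m = 3 Q + 1`, `Q ≥ 1`; `m ≤ (n-1)/2` gives `2 Q < k`.
`A = {k} ∪ {i + j k : 1 ≤ i ≤ Q, 0 ≤ j < 3}` (in `ZMod n`); `3 Q + 1` different elements, `A` asymmetric: use
`reps` from `Upper.lean` (`R` = the set of these natural numbers, all `< n`, positive; no two of them, equal or not,
have sum `n = 3 k`: `i + i' ≡ 0` mod `k` is impossible as `2 ≤ i + i' ≤ 2 Q < k`; `k + (i + j k)` is not divisible by `k`;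
`k + k ≠ 3 k`).
`|Σ A| ≤ T m = 3 Π + 1`, `Π = 3 Q (Q+1)/2 = ∑` of the residues `i`: every subset sum is `r + j k` with an integer
`0 ≤ r ≤ Π`; for `0 < r < Π` there are at most `3` values; for `r = 0` the subset is contained in `{k}`: the values `0, k`;
for `r = Π` all the elements `i + j k` are used: the two values `σ`, `σ + k`.  Total `2 + 3 (Π - 1) + 2 = 3 Π + 1` (`Π ≥ 3`), and
`T (3 Q + 1) = (3 Q + 1)(3 Q + 2)/2 = 9 Q (Q+1)/2 + 1`. -/
theorem upper3 (n m : ℕ) (hn : 0 < n) (h3 : 3 ∣ n) (hm3 : m % 3 = 1) (h4 : 4 ≤ m)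
    (hm : m ≤ (n - 1) / 2) :
    ∃ A : Finset (ZMod n), A.card = m ∧ (∀ a ∈ A, -a ∉ A) ∧ A.subsetSum.card ≤ T m := by
  obtain ⟨k, hk⟩ := h3
  obtain ⟨Q, hQ⟩ : ∃ Q, m = 3 * Q + 1 := ⟨m / 3, by omega⟩
  obtain ⟨A, h5, h6, h7⟩ := key n k 3 1 Q hk (by norm_num) le_rfl (by omega) (by omega)
  refine ⟨A, by omega, h6, h7.trans ?_⟩
  unfold SPR.T
  obtain ⟨s, hs⟩ : ∃ s, Q * (Q + 1) = 2 * s := by
    obtain ⟨s, hs⟩ := Nat.even_mul_succ_self Q
    exact ⟨s, by omega⟩
  have e1 : m * (m + 1) = 2 * (9 * s + 1) := by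
    rw [hQ]
    have : (3 * Q + 1) * (3 * Q + 1 + 1) = 9 * (Q * (Q + 1)) + 2 := by ring
    rw [this, hs]
    ring
  have hs1 : 1 ≤ s := by
    have : 1 * 2 ≤ Q * (Q + 1) := Nat.mul_le_mul (by omega) (by omega)
    omega
  rw [e1, hs]
  have e2 : 2 * s / 2 = s := by omega
  have e3 : 2 * (9 * s + 1) / 2 = 9 * s + 1 := by omega
  rw [e2, e3]
  norm_num
  omega

/-- The exceptional set for `5 ∣ n`.  `n = 5 k`, `m = 5 Q + 2`, `Q ≥ 1`, `2 Q < k`;
`A = {k, 2 k} ∪ {i + j k : 1 ≤ i ≤ Q, 0 ≤ j < 5}`.  As before: `r = 0`: the values `0, k, 2k, 3k`; `r = Π = 5 Q (Q+1)/2`: `4` values;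
`0 < r < Π`: at most `5` values.  Total `5 (Π - 1) + 8 = 5 Π + 3 = T (5 Q + 2)`. -/
theorem upper5 (n m : ℕ) (hn : 0 < n) (h5 : 5 ∣ n) (hm5 : m % 5 = 2) (h7 : 7 ≤ m)
    (hm : m ≤ (n - 1) / 2) :
    ∃ A : Finset (ZMod n), A.card = m ∧ (∀ a ∈ A, -a ∉ A) ∧ A.subsetSum.card ≤ T m := by
  obtain ⟨k, hk⟩ := h5
  obtain ⟨Q, hQ⟩ : ∃ Q, m = 5 * Q + 2 := ⟨m / 5, by omega⟩
  obtain ⟨A, h5, h6, h7⟩ := key n k 5 2 Q hk (by norm_num) (by norm_num) (by omega) (by omega)
  refine ⟨A, by omega, h6, h7.trans ?_⟩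
  unfold SPR.T
  obtain ⟨s, hs⟩ : ∃ s, Q * (Q + 1) = 2 * s := by
    obtain ⟨s, hs⟩ := Nat.even_mul_succ_self Q
    exact ⟨s, by omega⟩
  have e1 : m * (m + 1) = 2 * (25 * s + 3) := by
    rw [hQ]
    have : (5 * Q + 2) * (5 * Q + 2 + 1) = 25 * (Q * (Q + 1)) + 6 := by ring
    rw [this, hs]
    ring
  have hs1 : 1 ≤ s := by
    have : 1 * 2 ≤ Q * (Q + 1) := Nat.mul_le_mul (by omega) (by omega)
    omega
  rw [e1, hs]
  have e2 : 2 * s / 2 = s := by omega
  have e3 : 2 * (25 * s + 3) / 2 = 25 * s + 3 := by omega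
  rw [e2, e3]
  norm_num
  omega

end FX
end

section

set_option autoImplicit false
set_option linter.unusedSectionVars false

open Finset Pointwise

namespace FX

open RG (stb mem_stb gg ph)
open SPR (T)
open AM
open Pool.Agent.Lib.MP_d3cc86_co (lam Asym symz)

variable {G : Type} [AddCommGroup G] [Fintype G] [DecidableEq G]

private lemma zero_mem_symz' (V : Finset G) : (0 : G) ∈ symz V := by
  unfold symz
  exact Finset.mem_insert_self _ _

private lemma mem_symz_of_mem {V : Finset G} {x : G} (h : x ∈ V) : x ∈ symz V := by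
  unfold symz
  exact Finset.mem_insert_of_mem (Finset.mem_union_left _ h)

private lemma neg_mem_symz_of_mem {V : Finset G} {x : G} (h : x ∈ V) : -x ∈ symz V := by
  unfold symz
  refine Finset.mem_insert_of_mem (Finset.mem_union_right _ ?_)
  rw [Finset.mem_neg']
  rwa [neg_neg]

private lemma zero_mem_smul (V : Finset G) (i : ℕ) : (0 : G) ∈ i • symz V := by
  induction i with
  | zero => rw [zero_smul]; exact Finset.zero_mem_zero
  | succ n ih =>
    rw [succ_nsmul]
    have := Finset.add_mem_add ih (zero_mem_symz' V)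
    rwa [add_zero] at this

private lemma mem_smul_of_mem (V : Finset G) (i : ℕ) (hi : 1 ≤ i) {x : G} (hx : x ∈ symz V) :
    x ∈ i • symz V := by
  obtain ⟨n, rfl⟩ : ∃ n, i = n + 1 := ⟨i - 1, by omega⟩
  rw [succ_nsmul]
  have := Finset.add_mem_add (zero_mem_smul V n) hx
  rwa [zero_add] at this

private lemma smul_sub_closure (V : Finset G) (i : ℕ) :
    ∀ t ∈ i • symz V, t ∈ AddSubgroup.closure (V : Set G) := by
  have hS : ∀ t ∈ symz V, t ∈ AddSubgroup.closure (V : Set G) := by
    intro t ht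
    unfold symz at ht
    rw [Finset.mem_insert, Finset.mem_union, Finset.mem_neg'] at ht
    rcases ht with rfl | ht | ht
    · exact AddSubgroup.zero_mem _
    · exact AddSubgroup.subset_closure (by exact_mod_cast ht)
    · have h1 : -t ∈ AddSubgroup.closure (V : Set G) :=
        AddSubgroup.subset_closure (by exact_mod_cast ht)
      have := AddSubgroup.neg_mem _ h1
      rwa [neg_neg] at this
  induction i with
  | zero =>
    intro t ht
    rw [zero_smul, Finset.mem_zero] at ht
    rw [ht]; exact AddSubgroup.zero_mem _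
  | succ n ih =>
    intro t ht
    rw [succ_nsmul, Finset.mem_add] at ht
    obtain ⟨a, ha, b, hb, rfl⟩ := ht
    exact AddSubgroup.add_mem _ (ih a ha) (hS b hb)

private lemma three_cosets (S : Finset G) (H : AddSubgroup G) {p q r : G} (hp : p ∈ S) (hq : q ∈ S)
    (hr : r ∈ S) (h1 : p - q ∉ H) (h2 : p - r ∉ H) (h3 : q - r ∉ H) :
    3 * Nat.card H ≤ (S + sf H).card := by
  have hdis : ∀ u v : G, u - v ∉ H → Disjoint (u +ᵥ sf H) (v +ᵥ sf H) := by
    intro u v huv
    rw [Finset.disjoint_left]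
    intro t ht1 ht2
    rw [Finset.mem_vadd_finset] at ht1 ht2
    obtain ⟨a, ha, rfl⟩ := ht1
    obtain ⟨b, hb, hab⟩ := ht2
    rw [mem_sf] at ha hb
    apply huv
    have h4 : u - v = b - a := by
      rw [vadd_eq_add, vadd_eq_add] at hab
      rw [sub_eq_sub_iff_add_eq_add, add_comm b v, hab]
    rw [h4]
    exact H.sub_mem hb ha
  have hsub : ∀ u ∈ S, u +ᵥ sf H ⊆ S + sf H := by
    intro u hu t ht
    rw [Finset.mem_vadd_finset] at ht
    obtain ⟨a, ha, rfl⟩ := ht
    exact Finset.add_mem_add hu ha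
  have hU : (p +ᵥ sf H) ∪ (q +ᵥ sf H) ∪ (r +ᵥ sf H) ⊆ S + sf H :=
    Finset.union_subset (Finset.union_subset (hsub p hp) (hsub q hq)) (hsub r hr)
  have hc := Finset.card_le_card hU
  rw [Finset.card_union_of_disjoint, Finset.card_union_of_disjoint (hdis p q h1),
    Finset.card_vadd_finset, Finset.card_vadd_finset, Finset.card_vadd_finset, card_sf] at hc
  · omega
  · rw [Finset.disjoint_union_left]
    exact ⟨hdis p r h2, hdis q r h3⟩

private lemma stb_sub (V : Finset G) (i : ℕ) : ∀ t ∈ stb (i • symz V), t ∈ i • symz V := by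
  intro t ht
  have h := ((mem_stb _ _).1 ht 0).2 (zero_mem_smul V i)
  rwa [zero_add] at h

/-- Let `S = symz V`, `X = i • S`, `H = stb X`; `0 ∈ X`, so `H ⊆ X ⊆ closure V`.  Let `x ∈ V \ H`.
If `x + x ∉ H` then `0, x, -x ∈ S` lie in three different cosets of `H`, so `|S + H| ≥ 3 |H|`.
Suppose `x + x ∈ H`, and let `H' = H ∪ (x + H)`, a subgroup.  If some `y ∈ V` is not in `H'` then `0, x, y ∈ S` lie in
three different cosets.  Otherwise `V ⊆ H'`, so `X ⊆ closure V ⊆ H'`; `0 ∈ X` and `x ∈ S ⊆ X` (`i ≥ 1`, `0 ∈ S`), and `X` is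
a union of cosets of `H`, so `X = H'`; but then `x ∈ stb X = H` (`X` is a subgroup containing `x`), a
contradiction.  (The union of three different cosets of `H` has `3 |H|` elements: `sf H`, `x +ᵥ sf H`, … are
pairwise disjoint subsets of `S + sf H`.) -/
theorem d1a (V : Finset G) (i : ℕ) (hi : 1 ≤ i) (hV : ¬ ∀ v ∈ V, v ∈ stb (i • symz V)) :
    3 * Nat.card (stb (i • symz V)) ≤ (symz V + sf (stb (i • symz V))).card := by
  set H := stb (i • symz V) with hH
  push Not at hV
  obtain ⟨x, hxV, hxH⟩ := hV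
  by_cases hxx : x + x ∈ H
  · by_cases hall : ∀ y ∈ V, y ∈ H ∨ y - x ∈ H
    · exfalso
      apply hxH
      have hcl : ∀ y ∈ AddSubgroup.closure (V : Set G), y ∈ H ∨ y - x ∈ H := by
        intro y hy
        induction hy using AddSubgroup.closure_induction with
        | mem y hy => exact hall y (by exact_mod_cast hy)
        | zero => exact Or.inl H.zero_mem
        | add a b _ _ ha hb =>
          rcases ha with ha | ha <;> rcases hb with hb | hb
          · exact Or.inl (H.add_mem ha hb)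
          · right
            have : a + b - x = a + (b - x) := by abel
            rw [this]; exact H.add_mem ha hb
          · right
            have : a + b - x = (a - x) + b := by abel
            rw [this]; exact H.add_mem ha hb
          · left
            have : a + b = (a - x) + (b - x) + (x + x) := by abel
            rw [this]; exact H.add_mem (H.add_mem ha hb) hxx
        | neg a _ ha =>
          rcases ha with ha | ha
          · exact Or.inl (H.neg_mem ha)
          · right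
            have : -a - x = -(a - x) - (x + x) := by abel
            rw [this]; exact H.sub_mem (H.neg_mem ha) hxx
      have hX : ∀ t, t ∈ i • symz V ↔ (t ∈ H ∨ t - x ∈ H) := by
        intro t
        constructor
        · intro ht
          exact hcl t (smul_sub_closure V i t ht)
        · rintro (ht | ht)
          · exact stb_sub V i t ht
          · have hx : x ∈ i • symz V := mem_smul_of_mem V i hi (mem_symz_of_mem hxV)
            have h := ((mem_stb _ _).1 ht x).2 hx
            rwa [add_sub_cancel] at h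
      rw [hH, mem_stb]
      intro t
      rw [hX, hX]
      constructor
      · rintro (h | h)
        · right
          have : t - x = (t + x) - (x + x) := by abel
          rw [this]; exact H.sub_mem h hxx
        · left
          rwa [add_sub_cancel_right] at h
      · rintro (h | h)
        · right
          rwa [add_sub_cancel_right]
        · left
          have : t + x = (t - x) + (x + x) := by abel
          rw [this]; exact H.add_mem h hxx
    · push Not at hall
      obtain ⟨y, hyV, hyH, hyx⟩ := hall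
      refine three_cosets (symz V) H (zero_mem_symz' V) (mem_symz_of_mem hxV) (mem_symz_of_mem hyV)
        ?_ ?_ ?_
      · rw [zero_sub]; intro h; apply hxH; have := H.neg_mem h; rwa [neg_neg] at this
      · rw [zero_sub]; intro h; apply hyH; have := H.neg_mem h; rwa [neg_neg] at this
      · intro h; apply hyx; have := H.neg_mem h; rwa [neg_sub] at this
  · refine three_cosets (symz V) H (zero_mem_symz' V) (mem_symz_of_mem hxV)
      (neg_mem_symz_of_mem hxV) ?_ ?_ ?_
    · rw [zero_sub]; intro h; apply hxH; have := H.neg_mem h; rwa [neg_neg] at this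
    · rw [zero_sub, neg_neg]; exact hxH
    · rw [sub_neg_eq_add]; exact hxx

/-- If `V ⊆ H = stb (i • S)` then `closure V ≤ H`, and `0 ∈ i • S` gives `H ⊆ i • S`. -/
theorem d1b (V : Finset G) (i : ℕ) (hV : ∀ v ∈ V, v ∈ stb (i • symz V)) :
    Nat.card (AddSubgroup.closure (V : Set G)) ≤ (i • symz V).card := by
  have h1 : AddSubgroup.closure (V : Set G) ≤ stb (i • symz V) := by
    rw [AddSubgroup.closure_le]
    intro v hv
    exact hV v (by exact_mod_cast hv)
  rw [← card_sf]
  refine Finset.card_le_card fun t ht => ?_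
  rw [mem_sf] at ht
  exact stb_sub V i t (h1 ht)

end FX
end

section

set_option autoImplicit false
set_option linter.unusedSectionVars false

open Finset Pointwise

namespace FX

open RG (stb mem_stb gg ph)
open SPR (T)
open AM
open Pool.Agent.Lib.MP_d3cc86_co (lam Asym symz)

variable {G : Type} [AddCommGroup G] [Fintype G] [DecidableEq G]

/-- If `|(m K) • S| ≤ 2 g m` (`S = symz V`, `|V| = v`, `2 g m < |closure V|`, `8 g ≤ 8 K v + v + 16`) then
`|K • S| ≤ (K+1) |S|`.  Let `H = stb ((m K) • S)`.  `V ⊄ H` by `d1b`, so `|S + H| ≥ 3 |H|` (`d1a`).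
`kneser_iter S (m K)`: `m K |S + H| ≤ 2 g m + (m K - 1) |H|`, so `K (|S + H| - |H|) ≤ 2 g`, hence
`2 K |H| ≤ 2 g`, `K |H| ≤ g`.
`kneser_iter` also for `X = K • S` and `m`: `m • (K • S) = (m K) • S` (`mul_smul`/`mul_nsmul`), `m |X + H| ≤ 2 g m + (m-1) |H|`, so
`|K • S| ≤ |X + H| ≤ 2 g + |H|`.  `8 K |H| ≤ 8 g ≤ 8 K v + v + 16`, so `|H| ≤ v + v/(8K) + 2/K ≤ v + v / 8 + 2`
and `8 |K • S| ≤ 16 g + 8 |H| ≤ (16 K v + 2 v + 32) + (8 v + v + 16) = 16 K v + 11 v + 48 ≤ 8 (K+1)(2 v + 1)` for
`5 v ≥ 48`. -/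
theorem d1c (V : Finset G) (hV : Asym V) (K g m : ℕ) (hK : 1 ≤ K) (hm : 1 ≤ m)
    (hv : 100 ≤ V.card) (hg : 8 * g ≤ 8 * K * V.card + V.card + 16)
    (h1 : ((m * K) • symz V).card ≤ 2 * g * m)
    (h2 : 2 * g * m < Nat.card (AddSubgroup.closure (V : Set G))) :
    (K • symz V).card ≤ (K + 1) * (symz V).card := by
  obtain ⟨i, hi⟩ : ∃ i, i = m * K := ⟨_, rfl⟩
  have hi1 : 1 ≤ i := by rw [hi]; exact Nat.mul_pos hm hK
  rw [← hi] at h1
  have hS0 : (0 : G) ∈ symz V := Finset.mem_insert_self _ _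
  have hne : (symz V).Nonempty := ⟨0, hS0⟩
  have hVH : ¬ ∀ v ∈ V, v ∈ stb (i • symz V) := by
    intro h
    have h3 := d1b V i h
    omega
  have h3 := d1a V i hi1 hVH
  have h4 := kneser_iter (symz V) hne i hi1
  have hX : m • (K • symz V) = i • symz V := by
    rw [hi, mul_nsmul']
  have h5 := kneser_iter (K • symz V) hne.nsmul m hm
  rw [hX] at h5
  have h6 : (K • symz V).card ≤ (K • symz V + sf (stb (i • symz V))).card := by
    apply Finset.card_le_card
    intro z hz
    exact Finset.mem_add.2 ⟨z, hz, 0, zero_mem_sf _, add_zero z⟩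
  obtain ⟨h, hh⟩ : ∃ h, h = Nat.card (stb (i • symz V)) := ⟨_, rfl⟩
  obtain ⟨a, ha⟩ : ∃ a, a = (symz V + sf (stb (i • symz V))).card := ⟨_, rfl⟩
  obtain ⟨b, hb⟩ : ∃ b, b = (K • symz V + sf (stb (i • symz V))).card := ⟨_, rfl⟩
  obtain ⟨c, hc⟩ : ∃ c, c = (i • symz V).card := ⟨_, rfl⟩
  obtain ⟨x, hx⟩ : ∃ x, x = (K • symz V).card := ⟨_, rfl⟩
  obtain ⟨v, hv'⟩ : ∃ v, v = V.card := ⟨_, rfl⟩
  rw [← hh, ← ha] at h3
  rw [← hh, ← ha, ← hc] at h4
  rw [← hh, ← hb, ← hc] at h5
  rw [← hb, ← hx] at h6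
  rw [← hc] at h1
  rw [← hx, Pool.Agent.Lib.MP_d3cc86_co.card_symz hV, ← hv']
  rw [← hv'] at hv hg
  -- `K h ≤ g`
  have h7 : K * h ≤ g := by
    obtain ⟨j, hj⟩ : ∃ j, i = j + 1 := ⟨i - 1, by omega⟩
    have e1 : i - 1 = j := by omega
    rw [e1] at h4
    have e2 : i * (3 * h) ≤ i * a := Nat.mul_le_mul_left _ h3
    have e3 : 2 * (i * h) ≤ 2 * g * m := by
      have e4 : j * h ≤ i * h := Nat.mul_le_mul_right _ (by omega)
      have e5 : i * (3 * h) = 3 * (i * h) := by ring
      omega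
    have e6 : m * (K * h) ≤ m * g := by
      have e7 : i * h = m * (K * h) := by rw [hi]; ring
      have e8 : 2 * g * m = 2 * (m * g) := by ring
      omega
    exact Nat.le_of_mul_le_mul_left e6 hm
  -- `b ≤ 2 g + h`
  have h8 : b ≤ 2 * g + h := by
    have e1 : m * b ≤ m * (2 * g + h) := by
      have e2 : (m - 1) * h ≤ m * h := Nat.mul_le_mul_right _ (by omega)
      have e3 : m * (2 * g + h) = 2 * g * m + m * h := by ring
      omega
    exact Nat.le_of_mul_le_mul_left e1 hm
  -- `8 h ≤ 9 v + 16`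
  have h9 : 8 * h ≤ 9 * v + 16 := by
    have e1 : K * (8 * h) ≤ K * (9 * v + 16) := by
      have e2 : v + 16 ≤ K * (v + 16) := Nat.le_mul_of_pos_left _ hK
      have e3 : K * (8 * h) = 8 * (K * h) := by ring
      have e4 : K * (9 * v + 16) = 8 * K * v + K * (v + 16) := by ring
      omega
    exact Nat.le_of_mul_le_mul_left e1 hK
  have h10 : 8 * x ≤ 8 * ((K + 1) * (2 * v + 1)) := by
    have e1 : 8 * ((K + 1) * (2 * v + 1)) = 2 * (8 * K * v) + 16 * v + 8 * K + 8 := by ring
    omega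
  omega

/-- `q = 100 (K+2)^2`.  Let `v = |V|`, `c = |C|`, `g = K v + v / 8 + 1` (so `8 K v + v ≤ 8 g ≤ 8 K v + v + 8`),
`J = (c - 1) / g` (so `g J + 1 ≤ c ≤ g J + g`); `g ≤ (K + 2) v`, `c ≥ q v`, so `J + 1 ≥ q / (K+2)`, `J ≥ 20 (K + 2)`.
Suppose the claim fails.  For `1 ≤ m ≤ J`: `2 g m ≤ 2 (c - 1) < |closure V|`, so by `d1c`
`|m • (K • S)| = |(m K) • S| > 2 g m`.  So `AM.layer C (K • S)` with `l = K ((q+1) v / q)` applies:
`lam C s ≤ l` for `s ∈ K • S` (`lam_nsmul_le`, `lam_neg`, `lam_zero`, `flat`: `lam C x ≤ (q+1) v / q`).  We get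
`g J + 1 ≤ J l + g`.  Multiply by `8 q`: `q (8 K v + v) J ≤ 8 q g J ≤ 8 J K (q+1) v + 8 q g`, so
`q v J ≤ 8 J K v + 8 q (K+2) v`, `(q - 8 K) J ≤ 8 q (K+2)`; as `q ≥ 16 K`: `J ≤ 16 (K+2)`, a contradiction. -/
theorem d1 (K : ℕ) (hK : 1 ≤ K) : ∃ q : ℕ, ∀ (G : Type) [AddCommGroup G] [Fintype G]
    [DecidableEq G] (V C : Finset G), Ctx V C q →
    (K • symz V).card ≤ (K + 1) * (symz V).card := by
  refine ⟨100 * (K + 2) ^ 2, ?_⟩
  intro G _ _ _ V C hCt
  by_contra hcon
  obtain ⟨q, hq⟩ : ∃ q, q = 100 * (K + 2) ^ 2 := ⟨_, rfl⟩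
  rw [← hq] at hCt
  obtain ⟨v, hv⟩ : ∃ v, v = V.card := ⟨_, rfl⟩
  obtain ⟨c, hc⟩ : ∃ c, c = C.card := ⟨_, rfl⟩
  have hbig : q ≤ v := hv ▸ hCt.big
  have hwide : q * v ≤ c := by rw [hv, hc]; exact hCt.wide
  have hhalf : 2 * c ≤ Nat.card (AddSubgroup.closure (V : Set G)) := by rw [hc]; exact hCt.half
  have hq100 : 100 ≤ q := by
    have e1 : 1 ≤ (K + 2) ^ 2 := Nat.one_le_pow _ _ (by omega)
    omega
  have hqpos : 0 < q := by omega
  have hv100 : 100 ≤ v := hq100.trans hbig
  have hc1 : 1 ≤ c := by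
    have : 1 ≤ q * v := Nat.mul_pos hqpos (by omega)
    omega
  obtain ⟨g, hg⟩ : ∃ g, g = K * v + v / 8 + 1 := ⟨_, rfl⟩
  have hKv : 8 * K * v = 8 * (K * v) := by ring
  have hg1 : 8 * K * v + v ≤ 8 * g := by omega
  have hg2 : 8 * g ≤ 8 * K * v + v + 16 := by omega
  have hgpos : 1 ≤ g := by omega
  have hg3 : g ≤ (K + 2) * v := by
    have e1 : (K + 2) * v = K * v + 2 * v := by ring
    omega
  obtain ⟨J, hJ⟩ : ∃ J, J = (c - 1) / g := ⟨_, rfl⟩
  have hJ1 : g * J + 1 ≤ c := by
    have e1 : g * ((c - 1) / g) ≤ c - 1 := Nat.mul_div_le _ _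
    rw [← hJ] at e1
    omega
  have hJ2 : c ≤ g * J + g := by
    have e1 : c - 1 < g * ((c - 1) / g) + g := by
      have := Nat.lt_mul_div_succ (c - 1) (show 0 < g by omega)
      rw [Nat.mul_add, Nat.mul_one] at this
      exact this
    rw [← hJ] at e1
    omega
  have hJ3 : 100 * (K + 2) ≤ J + 1 := by
    have e1 : (v * (K + 2)) * (100 * (K + 2)) ≤ (v * (K + 2)) * (J + 1) := by
      calc (v * (K + 2)) * (100 * (K + 2)) = q * v := by rw [hq]; ring
        _ ≤ c := hwide
        _ ≤ g * J + g := hJ2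
        _ = g * (J + 1) := by ring
        _ ≤ ((K + 2) * v) * (J + 1) := Nat.mul_le_mul_right _ hg3
        _ = (v * (K + 2)) * (J + 1) := by ring
    exact Nat.le_of_mul_le_mul_left e1 (Nat.mul_pos (by omega) (by omega))
  have hJpos : 1 ≤ J := by omega
  have hS0 : (0 : G) ∈ symz V := Finset.mem_insert_self _ _
  have h0 : (0 : G) ∈ K • symz V := by
    have h1 := Finset.nsmul_mem_nsmul hS0 (n := K)
    rwa [nsmul_zero] at h1
  have hS : ∀ i, 1 ≤ i → i ≤ J → 1 + 2 * g * i ≤ (i • (K • symz V)).card := by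
    intro i hi1 hi2
    by_contra hlt
    apply hcon
    refine d1c V hCt.asym K g i hK hi1 (by rw [← hv]; exact hv100) (by rw [← hv]; exact hg2) ?_ ?_
    · rw [mul_nsmul']
      omega
    · have e1 : g * i ≤ g * J := Nat.mul_le_mul_left _ hi2
      have e2 : 2 * g * i = 2 * (g * i) := by ring
      omega
  obtain ⟨l, hl⟩ : ∃ l, l = (q + 1) * v / q := ⟨_, rfl⟩
  have hlam : ∀ s ∈ symz V, lam C s ≤ l := by
    have hV : ∀ x ∈ V, lam C x ≤ l := by
      intro x hx
      rw [hl, Nat.le_div_iff_mul_le hqpos, Nat.mul_comm, hv]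
      exact hCt.flat x hx
    intro s hs
    unfold symz at hs
    rw [Finset.mem_insert, Finset.mem_union, Finset.mem_neg'] at hs
    rcases hs with rfl | hs | hs
    · rw [Pool.Agent.Lib.MP_d3cc86_co.lam_zero]; exact Nat.zero_le _
    · exact hV s hs
    · rw [← Pool.Agent.Lib.MP_d3cc86_co.lam_neg]; exact hV _ hs
  have hfin := AM.layer C (K • symz V) h0 g J (K * l) hgpos hJpos (by rw [← hc]; exact hJ1)
    (by rw [← hc]; exact hJ2) hS (Pool.Agent.Lib.MP_d3cc86_co.lam_nsmul_le hlam K)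
  have hql : q * l ≤ (q + 1) * v := by
    rw [hl]; exact Nat.mul_div_le _ _
  -- multiply by `8 q`
  have f1 : 8 * (J * K * (q * l)) ≤ 8 * (J * K * ((q + 1) * v)) :=
    Nat.mul_le_mul_left _ (Nat.mul_le_mul_left _ hql)
  have f2 : 8 * q * (g * J + 1) ≤ 8 * q * (J * (K * l) + g) := Nat.mul_le_mul_left _ hfin
  have f3 : q * J * (8 * K * v + v) ≤ q * J * (8 * g) := Nat.mul_le_mul_left _ hg1
  have f4 : 8 * q * g ≤ 8 * q * ((K + 2) * v) := Nat.mul_le_mul_left _ hg3
  have f5 : v * (q * J) ≤ v * (8 * J * K + 8 * q * (K + 2)) := by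
    nlinarith [f1, f2, f3, f4]
  have f6 : q * J ≤ 8 * J * K + 8 * q * (K + 2) := Nat.le_of_mul_le_mul_left f5 (by omega)
  have f7 : 16 * K ≤ q := by
    rw [hq]; nlinarith
  have f8 : J * (16 * K) ≤ J * q := Nat.mul_le_mul_left _ f7
  have f9 : q * J ≤ q * (16 * (K + 2)) := by
    have e1 : q * (16 * (K + 2)) = 2 * (8 * q * (K + 2)) := by ring
    have e2 : J * (16 * K) = 2 * (8 * J * K) := by ring
    have e3 : J * q = q * J := by ring
    omega
  have f10 : J ≤ 16 * (K + 2) := Nat.le_of_mul_le_mul_left f9 hqpos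
  omega

end FX
end

section

set_option autoImplicit false

open Finset Pointwise

namespace AM

open SPR (T phi)

private lemma U1_sum_block (h : ℕ) (hh : 0 < h) (Q s : ℕ) (hs : s ≤ h) :
    ∑ j ∈ range s, ((Q * h + j) / h + 1) = s * (Q + 1) := by
  have : ∀ j ∈ range s, (Q * h + j) / h + 1 = Q + 1 := by
    intro j hj
    rw [mem_range] at hj
    have h1 : (Q * h + j) / h = Q := by
      rw [add_comm, Nat.add_mul_div_right _ _ hh, Nat.div_eq_of_lt (by omega), zero_add]
    rw [h1]
  rw [sum_congr rfl this, sum_const, card_range, smul_eq_mul]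

private lemma U1_sum (h : ℕ) (hh : 0 < h) (Q s : ℕ) (hs : s ≤ h) :
    ∑ i ∈ range (Q * h + s), (i / h + 1) = h * T Q + s * (Q + 1) := by
  have h0 : ∀ Q : ℕ, ∑ i ∈ range (Q * h), (i / h + 1) = h * T Q := by
    intro Q
    induction Q with
    | zero => simp [T]
    | succ Q ih =>
      rw [Nat.succ_mul, Finset.sum_range_add, ih, U1_sum_block h hh Q h le_rfl, SPR.T_succ]
      ring
  rw [Finset.sum_range_add, h0, U1_sum_block h hh Q s hs]

private lemma U1_two_T (Q : ℕ) : 2 * T Q = Q * (Q + 1) := by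
  unfold T
  have h1 : Q * (Q + 1) % 2 = 0 := by
    rcases Nat.even_or_odd Q with ⟨a, ha⟩ | ⟨a, ha⟩
    · rw [ha]
      have : (a + a) * (a + a + 1) = 2 * (a * (a + a + 1)) := by ring
      omega
    · rw [ha]
      have : (2 * a + 1) * (2 * a + 1 + 1) = 2 * ((2 * a + 1) * (a + 1)) := by ring
      omega
  omega

private lemma U1_arith (h Q s q : ℕ) (hh : 0 < h) (hs : s < h)
    (hq : q = if s = 0 then Q else Q + 1) : 2 * q ≤ 1 + (h * T Q + s * (Q + 1)) := by
  have hT := U1_two_T Q
  by_cases h0 : s = 0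
  · rw [if_pos h0] at hq
    subst hq
    subst h0
    have h1 : T q ≤ h * T q := Nat.le_mul_of_pos_left _ hh
    have h2 : 4 * q ≤ 2 + q * (q + 1) := by
      rcases Nat.lt_or_ge q 2 with h3 | h3
      · interval_cases q <;> omega
      · obtain ⟨c, rfl⟩ := Nat.exists_eq_add_of_le h3
        nlinarith [Nat.zero_le c]
    omega
  · rw [if_neg h0] at hq
    subst hq
    rcases Nat.eq_zero_or_pos Q with h1 | h1
    · subst h1
      have h2 : 0 < s := Nat.pos_of_ne_zero h0
      omega
    · have h2 : 2 * T Q ≤ h * T Q := Nat.mul_le_mul_right _ (by omega)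
      have h3 : 1 * (Q + 1) ≤ s * (Q + 1) := Nat.mul_le_mul_right _ (by omega)
      have h4 : 1 * (Q + 1) ≤ Q * (Q + 1) := Nat.mul_le_mul_right _ h1
      omega

/-- The extremal sets for ALL `n` (even `n` included); adapt the proof of `SPR.upper` (`SP/UP.lean`,
`n` odd).  `n = h k`, `h' = (h-1)/2`, `M = m - h'` (natural subtraction), `M = Q h + s`, `s < h`.
Let `q = Q` if `s = 0` and `q = Q + 1` if `s > 0` (`q = (M + h - 1) / h`), so `i / h + 1 ≤ q` for
`i < M`.

Case `2 q < k`.  As in `SPR.upper`: `R0 = {j k : 1 ≤ j ≤ min m h'}`, `R1 = {i / h + 1 + (i % h) k :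
i < M}`; residues modulo `k` of elements of `R1` are in `[1, q]`, so the sum of two elements of
`R0 ∪ R1`, not both in `R0`, is not divisible by `k` (residue in `[1, 2 q]`), and for two elements
`i k + j k` of `R0`, `i + j ≤ 2 h' < h`; `|R0 ∪ R1| = m`; the weight is `h T Q + s (Q + 1)`
(`SPR.subsetSum_card_le_weight`).

Case `k ≤ 2 q` (so `M ≥ 1`).  Then `n = h k ≤ phi h m = h (1 + h T Q + s (Q + 1))`, because
`k ≤ 2 q ≤ 1 + h T Q + s (Q + 1)`: if `s = 0`, `q = Q`, `1 + h T Q ≥ 1 + Q (Q+1)/2 ≥ 2 Q`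
(`(Q-1)(Q-2) ≥ 0`); if `s ≥ 1` then `h ≥ 2`, `q = Q + 1`: for `Q = 0`, `1 + s ≥ 2`; for `Q ≥ 1`,
`h T Q ≥ Q (Q+1)` and `(Q+1)^2 ≥ 2 (Q+1)`.  So the set `{1, ..., m}` does it
(`Pool.Agent.Lib.MP_d3cc86_co.reps`; `|Σ A| ≤ n`). -/
theorem upper_all (n h m : ℕ) (hn : 0 < n) (hd : h ∣ n) (hm : m ≤ (n - 1) / 2) :
    ∃ A : Finset (ZMod n), A.card = m ∧ (∀ a ∈ A, -a ∉ A) ∧ A.subsetSum.card ≤ phi h m := by
  classical
  have : NeZero n := ⟨hn.ne'⟩
  obtain ⟨k, hk⟩ := hd
  have hh0 : 0 < h := by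
    rcases Nat.eq_zero_or_pos h with h1 | h1
    · subst h1; omega
    · exact h1
  have hk0 : 0 < k := by
    rcases Nat.eq_zero_or_pos k with h1 | h1
    · subst h1; omega
    · exact h1
  obtain ⟨h', hm0⟩ : ∃ h', (h - 1) / 2 = h' := ⟨_, rfl⟩
  have hh2 : 2 * h' < h := by omega
  obtain ⟨M, hM⟩ : ∃ M, M = m - h' := ⟨_, rfl⟩
  obtain ⟨q, hqd⟩ : ∃ q, q = (M + h - 1) / h := ⟨_, rfl⟩
  have hq : ∀ i, i < M → i / h + 1 ≤ q := by
    intro i hi
    have h1 : i / h + 1 = (i + h) / h := by
      rw [Nat.add_div_right _ hh0]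
    rw [h1, hqd]
    exact Nat.div_le_div_right (by omega)
  have hMdecomp : M = M / h * h + M % h := by
    rw [mul_comm]; exact (Nat.div_add_mod _ _).symm
  by_cases hcase : 2 * q < k
  · set f : ℕ → ℕ := fun i => i / h + 1 + (i % h) * k with hf
    have hfmod : ∀ i, i < M → f i % k = i / h + 1 := by
      intro i hi
      have h1 := hq i hi
      simp only [hf]
      rw [Nat.add_mul_mod_self_right]
      exact Nat.mod_eq_of_lt (by omega)
    have hflt : ∀ i, i < M → f i < n := by
      intro i hi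
      have h1 := hq i hi
      have h2 : i % h < h := Nat.mod_lt i hh0
      have h3 : (i % h + 1) * k ≤ h * k := Nat.mul_le_mul_right k (by omega)
      have h4 : (i % h + 1) * k = (i % h) * k + k := by ring
      simp only [hf]
      omega
    have hfinj : ∀ i, i < M → ∀ j, j < M → f i = f j → i = j := by
      intro i hi j hj hij
      have h1 : i / h = j / h := by
        have h2 := hfmod i hi
        have h3 := hfmod j hj
        rw [hij] at h2
        omega
      have h4 : (i % h) * k = (j % h) * k := by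
        simp only [hf] at hij
        omega
      have h5 : i % h = j % h := Nat.eq_of_mul_eq_mul_right hk0 h4
      rw [← Nat.div_add_mod i h, ← Nat.div_add_mod j h, h1, h5]
    set R0 : Finset ℕ := (Finset.Icc 1 (min m h')).image (fun j => j * k) with hR0
    set R1 : Finset ℕ := (Finset.range M).image f with hR1
    have hR0c : R0.card = min m h' := by
      rw [hR0, Finset.card_image_of_injective _ (fun a b hab => Nat.eq_of_mul_eq_mul_right hk0 hab),
        Nat.card_Icc]
      omega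
    have hfinj' : Set.InjOn f ((Finset.range M : Finset ℕ) : Set ℕ) := by
      intro i hi j hj hij
      have hi' : i < M := Finset.mem_range.1 hi
      have hj' : j < M := Finset.mem_range.1 hj
      exact hfinj i hi' j hj' hij
    have hR1c : R1.card = M := by
      rw [hR1, Finset.card_image_of_injOn hfinj', Finset.card_range]
    have hR0p : ∀ r ∈ R0, ∃ j, r = j * k ∧ 0 < j ∧ j ≤ h' := by
      intro r hr
      rw [hR0, Finset.mem_image] at hr
      obtain ⟨j, hj, rfl⟩ := hr
      rw [Finset.mem_Icc] at hj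
      exact ⟨j, rfl, by omega, by omega⟩
    have hR1p : ∀ r ∈ R1, 0 < r % k ∧ r % k ≤ q ∧ r < n := by
      intro r hr
      rw [hR1, Finset.mem_image] at hr
      obtain ⟨i, hi, rfl⟩ := hr
      rw [Finset.mem_range] at hi
      have h1 := hq i hi
      have h2 := hfmod i hi
      exact ⟨by rw [h2]; exact Nat.succ_pos _, by rw [h2]; exact h1, hflt i hi⟩
    have hmodR : ∀ r ∈ R0, r % k = 0 := by
      intro r hr
      obtain ⟨j, rfl, _⟩ := hR0p r hr
      exact Nat.mul_mod_left j k
    have hmodn : n % k = 0 := by rw [hk]; exact Nat.mul_mod_left h k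
    have hdisj : Disjoint R0 R1 := by
      rw [Finset.disjoint_left]
      intro r h0 h1
      have e1 := hmodR r h0
      have e2 := (hR1p r h1).1
      omega
    have hRlt : ∀ r ∈ R0 ∪ R1, 0 < r ∧ r < n := by
      intro r hr
      rw [Finset.mem_union] at hr
      rcases hr with hr | hr
      · obtain ⟨j, rfl, hj0, hj⟩ := hR0p r hr
        refine ⟨Nat.mul_pos hj0 hk0, ?_⟩
        rw [hk]
        exact Nat.mul_lt_mul_of_pos_right (by omega) hk0
      · obtain ⟨h1, _, h3⟩ := hR1p r hr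
        refine ⟨?_, h3⟩
        rcases Nat.eq_zero_or_pos r with h4 | h4
        · subst h4; simp at h1
        · exact h4
    have hRk : ∀ r ∈ R0 ∪ R1, r % k ≤ q := by
      intro r hr
      rw [Finset.mem_union] at hr
      rcases hr with hr | hr
      · rw [hmodR r hr]; exact Nat.zero_le _
      · exact (hR1p r hr).2.1
    obtain ⟨hc, ha⟩ := Pool.Agent.Lib.MP_d3cc86_co.reps hn (R0 ∪ R1) hRlt (by
      intro r hr s hs hrs
      have e1 := hRk r hr
      have e2 := hRk s hs
      have e3 : (r + s) % k = r % k + s % k := by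
        rw [Nat.add_mod]
        exact Nat.mod_eq_of_lt (by omega)
      rw [hrs, hmodn] at e3
      have e4 : r % k = 0 := by omega
      have e5 : s % k = 0 := by omega
      rw [Finset.mem_union] at hr hs
      have hr0 : r ∈ R0 := by
        rcases hr with hr | hr
        · exact hr
        · have := (hR1p r hr).1
          omega
      have hs0 : s ∈ R0 := by
        rcases hs with hs | hs
        · exact hs
        · have := (hR1p s hs).1
          omega
      obtain ⟨j, rfl, _, hj⟩ := hR0p r hr0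
      obtain ⟨i, rfl, _, hi⟩ := hR0p s hs0
      have e6 : (j + i) * k = h * k := by
        rw [← hk, ← hrs]; ring
      have e7 := Nat.eq_of_mul_eq_mul_right hk0 e6
      omega)
    refine ⟨(R0 ∪ R1).image (fun r : ℕ => (r : ZMod n)), ?_, ha, ?_⟩
    · rw [hc, Finset.card_union_of_disjoint hdisj, hR0c, hR1c]
      omega
    · have h1 := SPR.subsetSum_card_le_weight hn hk ((R0 ∪ R1).image (fun r : ℕ => (r : ZMod n)))
        (fun a => a.val % k) (by
          intro a _
          rw [AddSubgroup.mem_zmultiples_iff]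
          refine ⟨((a.val / k : ℕ) : ℤ), ?_⟩
          have h2 : (a.val : ZMod n) = a := ZMod.natCast_zmod_val a
          have h3 : a.val = a.val / k * k + a.val % k := by
            rw [mul_comm]; exact (Nat.div_add_mod _ _).symm
          have h4 : (a : ZMod n) = ((a.val / k * k + a.val % k : ℕ) : ZMod n) := by
            rw [← h3]; exact h2.symm
          have h5 : a - ((a.val % k : ℕ) : ZMod n) = ((a.val / k * k : ℕ) : ZMod n) := by
            have h6 : ((a.val / k * k + a.val % k : ℕ) : ZMod n) =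
                ((a.val / k * k : ℕ) : ZMod n) + ((a.val % k : ℕ) : ZMod n) := by push_cast; ring
            rw [h6] at h4
            rw [sub_eq_iff_eq_add]
            exact h4
          rw [h5, Nat.cast_mul, natCast_zsmul, nsmul_eq_mul])
      refine h1.trans ?_
      unfold phi
      apply Nat.mul_le_mul_left
      have hinj : Set.InjOn (fun r : ℕ => (r : ZMod n)) ((R0 ∪ R1 : Finset ℕ) : Set ℕ) := by
        intro r hr s hs hrs
        have hr' := (hRlt r hr).2
        have hs' := (hRlt s hs).2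
        have h3 : (r : ZMod n) = (s : ZMod n) := hrs
        rw [ZMod.natCast_eq_natCast_iff'] at h3
        rwa [Nat.mod_eq_of_lt hr', Nat.mod_eq_of_lt hs'] at h3
      rw [Finset.sum_image hinj]
      have h2 : ∑ r ∈ R0 ∪ R1, ((r : ZMod n)).val % k = ∑ r ∈ R0 ∪ R1, r % k := by
        refine Finset.sum_congr rfl fun r hr => ?_
        rw [ZMod.val_natCast, Nat.mod_eq_of_lt (hRlt r hr).2]
      rw [h2, Finset.sum_union hdisj, Finset.sum_eq_zero hmodR, zero_add, hR1,
        Finset.sum_image hfinj']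
      have h3 : ∑ i ∈ range M, f i % k = ∑ i ∈ range M, (i / h + 1) := by
        refine Finset.sum_congr rfl fun i hi => ?_
        exact hfmod i (Finset.mem_range.1 hi)
      rw [h3, hm0, ← hM]
      have h5 := U1_sum h hh0 (M / h) (M % h) (Nat.mod_lt M hh0).le
      rw [← hMdecomp] at h5
      rw [h5]
      omega
  · push Not at hcase
    have hq2 : q = if M % h = 0 then M / h else M / h + 1 := by
      have hlt := Nat.mod_lt M hh0
      split_ifs with h0
      · rw [hqd]
        have h1 : M + h - 1 = (h - 1) + (M / h) * h := by omega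
        rw [h1, Nat.add_mul_div_right _ _ hh0, Nat.div_eq_of_lt (by omega), zero_add]
      · rw [hqd]
        have h1 : M + h - 1 = (M % h - 1) + (M / h + 1) * h := by
          have : (M / h + 1) * h = M / h * h + h := by ring
          omega
        rw [h1, Nat.add_mul_div_right _ _ hh0, Nat.div_eq_of_lt (by omega), zero_add]
    have hb := U1_arith h (M / h) (M % h) q hh0 (Nat.mod_lt M hh0) hq2
    obtain ⟨hc, ha⟩ := Pool.Agent.Lib.MP_d3cc86_co.reps hn (Finset.Icc 1 m) (by
      intro r hr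
      rw [Finset.mem_Icc] at hr
      omega) (by
      intro r hr s hs
      rw [Finset.mem_Icc] at hr hs
      omega)
    refine ⟨(Finset.Icc 1 m).image (fun r : ℕ => (r : ZMod n)), by rw [hc, Nat.card_Icc]; omega,
      ha, ?_⟩
    calc _ ≤ Fintype.card (ZMod n) := Finset.card_le_univ _
      _ = h * k := by rw [ZMod.card, hk]
      _ ≤ _ := by
        unfold phi
        rw [hm0, ← hM]
        exact Nat.mul_le_mul_left h (by omega)

end AM
end
end
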