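import Pool.Agent.Lib.MP_d3cc86_co.AM.Defs

set_option autoImplicit false
set_option linter.unusedSectionVars false

open Finset Pointwise

namespace AM

open RG (stb mem_stb)
open Pool.Agent.Lib.MP_d3cc86_co (Asym descent exists_params params_ok subsetSum_union)

variable {G : Type} [AddCommGroup G] [Fintype G]

/-- Read the proof of `lower_bound` in `Lib/MP_d3cc86_co/Lower.lean`: the same argument.
Suppose `|V|^2 ≥ 25 |H|`.  Work in the group `↥H` with `A = V.subtype (· ∈ H)`, `|A| = |V| = m`,
`N = |H|`: `2 m + 1 ≤ N` (`Asym.card_le`), so `m ≥ 51`; choose `w = ⌈m/3⌉`-like with `3 w ≤ m + 2`,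
`m ≤ 3 w`, `w ≥ 17`, the parameters of `exists_params`, `params_ok` and apply `descent`: it gives a
subgroup `M` of `↥H` and `F ⊆ A` with `F ⊆ M`, `|F| ≥ w ≥ 17` and every element of `M` in
`F.subsetSum`.  So `F.subsetSum` (as a subset of `G`) is the image of `M`, hence every element of the
image `M'` of `M` in `G` stabilizes `V.subsetSum = F'.subsetSum + (V \ F').subsetSum`
(`subsetSum_union`), i.e. `M' ≤ stb V.subsetSum = ⊥`.  But `M'` contains `F'`, which has at least `17`
elements: contradiction. -/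
theorem sparse [DecidableEq G] (V : Finset G) (hV : Asym V) (hst : stb V.subsetSum = ⊥)
    (H : AddSubgroup G) (hH : ∀ v ∈ V, v ∈ H) : V.card ^ 2 < 25 * Nat.card H := by
  classical
  by_contra hcon
  push Not at hcon
  rw [Nat.card_eq_fintype_card] at hcon
  set A : Finset H := V.subtype (fun x => x ∈ H) with hAdef
  have hAcard : A.card = V.card := by
    rw [hAdef, Finset.card_subtype, Finset.filter_true_of_mem hH]
  have hA : Asym A := by
    intro a ha hna
    rw [hAdef, Finset.mem_subtype] at ha hna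
    exact hV _ ha (by simpa using hna)
  have h25 : 25 * Fintype.card H ≤ A.card ^ 2 := by rw [hAcard]; exact hcon
  have hmN : 2 * A.card + 1 ≤ Fintype.card H := hA.card_le
  have hm51 : 51 ≤ A.card := by nlinarith
  obtain ⟨w, hw1, hw2⟩ : ∃ w, 3 * w ≤ A.card + 2 ∧ A.card ≤ 3 * w :=
    ⟨(A.card + 2) / 3, by omega, by omega⟩
  have hw17 : 17 ≤ w := by omega
  obtain ⟨l, J, hp1, hp2, hp3⟩ := exists_params w hw17
  obtain ⟨hq1, hq2⟩ := params_ok hw17 hw1 hw2 h25 hp2 hp3
  obtain ⟨M, F, hFA, hFM, hFc, hFs⟩ := descent (by omega) hp1 J H A hA hq1 hq2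
  set F' : Finset G := F.map (Function.Embedding.subtype _) with hF'
  have hF'V : F' ⊆ V := by
    intro x hx
    rw [hF', Finset.mem_map] at hx
    obtain ⟨y, hy, rfl⟩ := hx
    have := hFA hy
    rw [hAdef, Finset.mem_subtype] at this
    exact this
  have hsum : ∀ y : H, y ∈ M → (y : G) ∈ F'.subsetSum := by
    intro y hy
    have h1 := hFs y hy
    rw [Finset.mem_subsetSum_iff] at h1 ⊢
    obtain ⟨B, hB, hBy⟩ := h1
    refine ⟨B.map (Function.Embedding.subtype _), Finset.map_subset_map.2 hB, ?_⟩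
    rw [Finset.sum_map, ← hBy]
    simp
  have hsum' : ∀ z ∈ F'.subsetSum, ∃ g : H, g ∈ M ∧ (g : G) = z := by
    intro z hz
    rw [Finset.mem_subsetSum_iff] at hz
    obtain ⟨B, hB, hBy⟩ := hz
    have hM' : ∀ b ∈ B, b ∈ M.map H.subtype := by
      intro b hb
      have h1 := hB hb
      rw [hF', Finset.mem_map] at h1
      obtain ⟨y, hy, rfl⟩ := h1
      exact ⟨y, hFM y hy, rfl⟩
    have h2 : z ∈ M.map H.subtype := by
      rw [← hBy]
      exact AddSubgroup.sum_mem _ hM'
    obtain ⟨g, hg, hgz⟩ := h2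
    exact ⟨g, hg, hgz⟩
  have hsplit : V.subsetSum = F'.subsetSum + (V \ F').subsetSum := by
    rw [← subsetSum_union Finset.disjoint_sdiff, Finset.union_sdiff_of_subset hF'V]
  have hadd : ∀ y : H, y ∈ M → ∀ z ∈ V.subsetSum, z + (y : G) ∈ V.subsetSum := by
    intro y hy z hz
    rw [hsplit] at hz ⊢
    rw [Finset.mem_add] at hz ⊢
    obtain ⟨f, hf, r, hr, rfl⟩ := hz
    obtain ⟨g, hg, rfl⟩ := hsum' f hf
    refine ⟨((g + y : H) : G), hsum _ (M.add_mem hg hy), r, hr, ?_⟩
    rw [AddSubgroup.coe_add]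
    abel
  have hzero : ∀ y : H, y ∈ M → y = 0 := by
    intro y hy
    have h1 : (y : G) ∈ stb V.subsetSum := by
      rw [mem_stb]
      intro x
      constructor
      · intro hx
        have := hadd (-y) (M.neg_mem hy) _ hx
        simpa using this
      · exact hadd y hy x
    rw [hst, AddSubgroup.mem_bot] at h1
    exact Subtype.ext h1
  have hF0 : F ⊆ {0} := by
    intro x hx
    rw [Finset.mem_singleton]
    exact hzero x (hFM x hx)
  have h3 := Finset.card_le_card hF0
  rw [Finset.card_singleton] at h3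
  omega

/-- Apply `sparse` to `V' = V.filter (· ∈ H)`, `|V'| = |V| - |off V H|`; its sums are aperiodic by
`SM_ind`, `ind_mono` and `ap_mono`. -/
theorem sparse_in [DecidableEq G] (V : Finset G) (hV : Asym V) (hst : stb V.subsetSum = ⊥)
    (H : AddSubgroup G) : (V.card - (off V H).card) ^ 2 < 25 * Nat.card H := by
  classical
  have hsub : V.filter (fun x => x ∈ H) ⊆ V := Finset.filter_subset _ _
  have h1 : Asym (V.filter (fun x => x ∈ H)) := fun a ha hna => hV a (hsub ha) (hsub hna)
  have h2 : stb (V.filter (fun x => x ∈ H)).subsetSum = ⊥ := by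
    rw [← SM_ind]
    refine ap_mono (ind_mono hsub) ?_
    rw [SM_ind]
    exact hst
  have h3 := sparse _ h1 h2 H (fun v hv => (Finset.mem_filter.1 hv).2)
  have h4 : (V.filter (fun x => x ∈ H)).card + (off V H).card = V.card :=
    Finset.card_filter_add_card_filter_not (fun x => x ∈ H)
  have h5 : V.card - (off V H).card = (V.filter (fun x => x ∈ H)).card := by omega
  rw [h5]
  exact h3

end AM
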