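import Pool.Agent.Lib.MP_d3cc86_co.AM.Defs

section

set_option autoImplicit false
set_option linter.unusedSectionVars false

open Finset Pointwise

namespace AM

open RG (stb mem_stb)

variable {G : Type} [AddCommGroup G] [Fintype G]

/-- `X + Y` is a union of cosets of its stabilizer (immediate from `mem_stb`, `mem_sf`). -/
theorem add_sf_stb [DecidableEq G] (X : Finset G) : X + sf (stb X) = X := by
  apply Finset.Subset.antisymm
  · intro z hz
    obtain ⟨a, ha, b, hb, rfl⟩ := Finset.mem_add.1 hz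
    rw [mem_sf, mem_stb] at hb
    exact (hb a).2 ha
  · intro z hz
    exact Finset.mem_add.2 ⟨z, hz, 0, zero_mem_sf _, add_zero z⟩

/-- a set with `X + sf H = X` has `H ≤ stb X` -/
theorem le_stb [DecidableEq G] (X : Finset G) (H : AddSubgroup G) (h : X + sf H = X) :
    H ≤ stb X := by
  have key : ∀ g ∈ H, ∀ x ∈ X, x + g ∈ X := by
    intro g hg x hx
    rw [← h]
    exact Finset.add_mem_add hx ((mem_sf H g).2 hg)
  intro g hg
  rw [mem_stb]
  intro x
  constructor
  · intro hx
    have := key (-g) (H.neg_mem hg) _ hx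
    simpa using this
  · exact key g hg x

theorem sf_add_sf [DecidableEq G] (H : AddSubgroup G) : sf H + sf H = sf H := by
  apply Finset.Subset.antisymm
  · intro z hz
    obtain ⟨a, ha, b, hb, rfl⟩ := Finset.mem_add.1 hz
    rw [mem_sf] at *
    exact H.add_mem ha hb
  · intro z hz
    exact Finset.mem_add.2 ⟨z, hz, 0, zero_mem_sf _, add_zero z⟩

/-- Kneser's theorem with the stabilizer `H = stb (X + Y)`.  Apply `RG.kneser_general` to
`X' = X + sf H` and `Y' = Y + sf H`; `X' + Y' = X + Y + (sf H + sf H) = X + Y`.  It gives a subgroup `K`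
with `X + Y + K ⊆ X + Y`, hence `K ≤ H` (if `x + g ∈ X + Y` then `x = (x + g) + (-g) ∈ X + Y`) and
`|X'| + |Y'| ≤ |X + Y| + |K| ≤ |X + Y| + |H|`. -/
theorem kneser_stb [DecidableEq G] (X Y : Finset G) (hX : X.Nonempty) (hY : Y.Nonempty) :
    (X + sf (stb (X + Y))).card + (Y + sf (stb (X + Y))).card ≤
      (X + Y).card + Nat.card (stb (X + Y)) := by
  set H := stb (X + Y) with hH
  have hsf : (sf H).Nonempty := ⟨0, zero_mem_sf H⟩
  have hsum : (X + sf H) + (Y + sf H) = X + Y := by
    rw [add_add_add_comm, sf_add_sf, hH, add_sf_stb]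
  obtain ⟨K, hK1, hK2⟩ := RG.kneser_general (X + sf H) (Y + sf H) (hX.add hsf) (hY.add hsf)
  rw [hsum] at hK1 hK2
  have hKH : K ≤ H := by
    intro g hg
    rw [hH, mem_stb]
    intro x
    constructor
    · intro hx
      have := hK1 _ hx (-g) (K.neg_mem hg)
      simpa using this
    · intro hx
      exact hK1 x hx g hg
  have hc : Nat.card K ≤ Nat.card H := AddSubgroup.card_le_of_le hKH
  omega

end AM
end

section

set_option autoImplicit false
set_option linter.unusedSectionVars false

open Finset Pointwise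

namespace AM

open Pool.Agent.Lib.MP_d3cc86_co (lam lam_add card_mul_le_sum_lam lam_nsmul_le nsmul_mono_zero)

variable {G : Type} [AddCommGroup G] [Fintype G]

/-- Layered averaging.  Claim, by induction on `i ≤ J`: there is `C ⊆ i • S` with `|C| = 1 + 2 g i` and
`∑_{c ∈ C} lam B c ≤ l g i (i+1)`.  `i = 0`: `C = {0}`, `lam B 0 = 0`.  Step: `C ⊆ i • S ⊆ (i+1) • S`
(`nsmul_mono_zero`) and `|(i+1) • S| ≥ 1 + 2 g (i+1)`, so choose `C ⊆ C' ⊆ (i+1) • S` with
`|C'| = 1 + 2 g (i+1)` (`Finset.exists_subsuperset_card_eq`); the `2 g` new elements have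
`lam B c ≤ (i+1) l` (`lam_nsmul_le`): `l g i (i+1) + 2 g (i+1) l = l g (i+1)(i+2)`.

With `i = J` and `b = |B|`: `card_mul_le_sum_lam` gives `b (1 + 2 g J) ≤ l g J (J+1) + b^2`.  Write
`b = g J + 1 + r`, `0 ≤ r ≤ g - 1`: `b (1 + 2 g J - b) = (g J + 1 + r)(g J - r)
= g J (g J + 1) - r (r+1) ≥ g^2 J^2 + g J - g^2 + g`.  If the conclusion fails, `J l + g ≤ g J`, then
`l g J (J+1) ≤ g (g J - g)(J+1) = g^2 (J^2 - 1)`, which is smaller: contradiction. -/
theorem layer [DecidableEq G] (B S : Finset G) (h0 : (0 : G) ∈ S) (g J l : ℕ) (hg : 1 ≤ g)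
    (hJ : 1 ≤ J) (h1 : g * J + 1 ≤ B.card) (h2 : B.card ≤ g * J + g)
    (hS : ∀ i, 1 ≤ i → i ≤ J → 1 + 2 * g * i ≤ (i • S).card) (hl : ∀ s ∈ S, lam B s ≤ l) :
    g * J + 1 ≤ J * l + g := by
  have key : ∀ i, i ≤ J → ∃ C ⊆ i • S, C.card = 1 + 2 * g * i ∧
      ∑ c ∈ C, lam B c ≤ l * g * (i * (i + 1)) := by
    intro i
    induction i with
    | zero =>
      intro _
      refine ⟨{0}, ?_, ?_, ?_⟩
      · rw [zero_nsmul]
        exact Finset.Subset.refl _
      · simp
      · simp
    | succ i ih =>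
      intro hi
      obtain ⟨C, hC1, hC2, hC3⟩ := ih (by omega)
      have h4 := hS (i + 1) (by omega) hi
      have h5 : C ⊆ (i + 1) • S := hC1.trans (nsmul_mono_zero h0 (by omega))
      have h6 : 1 + 2 * g * (i + 1) = 1 + 2 * g * i + 2 * g := by ring
      obtain ⟨C', hC'1, hC'2, hC'3⟩ := Finset.exists_subsuperset_card_eq h5
        (n := 1 + 2 * g * (i + 1)) (by omega) h4
      refine ⟨C', hC'2, hC'3, ?_⟩
      have h7 : ∑ c ∈ C', lam B c = ∑ c ∈ C' \ C, lam B c + ∑ c ∈ C, lam B c :=
        (Finset.sum_sdiff hC'1).symm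
      have h8 : (C' \ C).card = 2 * g := by
        rw [Finset.card_sdiff_of_subset hC'1]
        omega
      have h9 : ∑ c ∈ C' \ C, lam B c ≤ (C' \ C).card * ((i + 1) * l) := by
        rw [← smul_eq_mul]
        refine Finset.sum_le_card_nsmul _ _ _ fun c hc => ?_
        exact lam_nsmul_le hl (i + 1) c (hC'2 (Finset.mem_sdiff.1 hc).1)
      rw [h8] at h9
      rw [h7]
      calc ∑ c ∈ C' \ C, lam B c + ∑ c ∈ C, lam B c
          ≤ 2 * g * ((i + 1) * l) + l * g * (i * (i + 1)) := add_le_add h9 hC3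
        _ = l * g * ((i + 1) * (i + 1 + 1)) := by ring
  obtain ⟨C, _, hC2, hC3⟩ := key J le_rfl
  have h3 := card_mul_le_sum_lam B C
  rw [hC2] at h3
  by_contra hcon
  obtain ⟨r, hr⟩ := Nat.exists_eq_add_of_le h1
  rw [hr] at h3 h2
  have hr2 : r + 1 ≤ g := by omega
  have h10 : g * J * (J + 1) * l ≤ (g * (J + 1)) * (g * J - g) := by
    have h11 : J * l ≤ g * J - g := by omega
    calc g * J * (J + 1) * l = (g * (J + 1)) * (J * l) := by ring
      _ ≤ _ := Nat.mul_le_mul_left _ h11
  obtain ⟨K, rfl⟩ : ∃ K, J = K + 1 := ⟨J - 1, by omega⟩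
  have h12 : g * (K + 1) - g = g * K := by
    rw [mul_add, mul_one, Nat.add_sub_cancel]
  rw [h12] at h10
  obtain ⟨t, rfl⟩ := Nat.exists_eq_add_of_le hr2
  have h13 : (((r + 1 + t) * (K + 1) + 1 + r) * (1 + 2 * (r + 1 + t) * (K + 1)) : ℕ) ≤
      (r + 1 + t) * (K + 1 + 1) * ((r + 1 + t) * K) +
        ((r + 1 + t) * (K + 1) + 1 + r) * ((r + 1 + t) * (K + 1) + 1 + r) := by
    refine h3.trans (Nat.add_le_add_right (hC3.trans ?_) _)
    calc l * (r + 1 + t) * ((K + 1) * (K + 1 + 1)) =
        (r + 1 + t) * (K + 1) * (K + 1 + 1) * l := by ring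
      _ ≤ _ := h10
  nlinarith [Nat.zero_le r, Nat.zero_le t, Nat.zero_le K, Nat.zero_le (r * K), Nat.zero_le (t * K),
    Nat.zero_le (r * t)]

end AM
end

section

set_option autoImplicit false
set_option linter.unusedSectionVars false

open Finset Pointwise

namespace AM

open RG (stb mem_stb)

variable {G : Type} [AddCommGroup G] [Fintype G]

private lemma sf_eq_nsmul [DecidableEq G] (H : AddSubgroup G) (i : ℕ) (hi : 1 ≤ i) :
    i • sf H = sf H := by
  induction i, hi using Nat.le_induction with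
  | base => exact one_nsmul _
  | succ n _ ih => rw [succ_nsmul, ih, sf_add_sf]

private lemma nsmul_add_sf [DecidableEq G] (X : Finset G) (H : AddSubgroup G) (h : X + sf H = X)
    (i : ℕ) (hi : 1 ≤ i) : i • X + sf H = i • X := by
  induction i, hi using Nat.le_induction with
  | base => rw [one_nsmul, h]
  | succ n _ ih => rw [succ_nsmul, add_assoc, h]

private lemma add_sf_of_le [DecidableEq G] (X : Finset G) {H K : AddSubgroup G} (hHK : H ≤ K)
    (h : X + sf K = X) : X + sf H = X := by
  apply le_antisymm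
  · calc X + sf H ⊆ X + sf K := Finset.add_subset_add_left (fun x hx => by
          rw [mem_sf] at hx ⊢; exact hHK hx)
      _ = X := h
  · intro x hx
    exact Finset.mem_add.2 ⟨x, hx, 0, zero_mem_sf H, add_zero x⟩

private lemma stb_le_stb_add [DecidableEq G] (X Y : Finset G) : stb X ≤ stb (X + Y) := by
  apply le_stb
  rw [add_right_comm, add_sf_stb]

private lemma kneser_iter_aux [DecidableEq G] (X : Finset G) (hX : X.Nonempty) (H : AddSubgroup G)
    (hXH : X + sf H = X) (i : ℕ) (hi : 1 ≤ i) (hs : stb (i • X) = H) :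
    i * X.card ≤ (i • X).card + (i - 1) * Nat.card H := by
  induction i, hi using Nat.le_induction with
  | base => simp
  | succ n hn ih =>
    have hnX : n • X + sf H = n • X := nsmul_add_sf X H hXH n hn
    have h1 : stb (n • X) = H := by
      apply le_antisymm
      · rw [← hs, succ_nsmul]
        exact stb_le_stb_add _ _
      · exact le_stb _ _ hnX
    have h2 := ih h1
    have h3 := kneser_stb (n • X) X hX.nsmul hX
    rw [← succ_nsmul, hs, hnX, hXH] at h3
    have h4 : (n + 1 - 1) * Nat.card H = (n - 1) * Nat.card H + Nat.card H := by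
      obtain ⟨m, rfl⟩ : ∃ m, n = m + 1 := ⟨n - 1, by omega⟩
      simp only [Nat.add_sub_cancel]
      ring
    rw [h4, Nat.add_mul, Nat.one_mul]
    omega

/-- Kneser's theorem for `i` equal summands; `H = stb (i • X)`.

First the special case (prove it as an auxiliary lemma by induction on `i ≥ 1`): if `H` is a subgroup,
`X` nonempty, `X + sf H = X` and `stb (i • X) = H` then `i |X| ≤ |i • X| + (i-1) |H|`.
`i = 1` is clear.  Step `i → i + 1`: `(i+1) • X = i • X + X` (`succ_nsmul`), whose stabilizer is `H`;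
`kneser_stb` for `i • X` and `X` gives `|i • X + sf H| + |X + sf H| ≤ |(i+1) • X| + |H|`;
`i • X + sf H = i • X` (because `i ≥ 1` and `X + sf H = X`) and `X + sf H = X`.  The stabilizer of
`i • X` is `H` too: it contains `H` (`le_stb`) and it is contained in the stabilizer of
`i • X + X = (i+1) • X`.  So the induction hypothesis applies to `i • X` and gives the claim.

General case: put `H = stb (i • X)` and `X' = X + sf H`.  Then `X' + sf H = X'` (`sf_add_sf`),
`i • X' = i • X + i • sf H = i • X + sf H = i • X` (`nsmul_add`, `add_sf_stb`), so the special case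
applies to `X'`. -/
theorem kneser_iter [DecidableEq G] (X : Finset G) (hX : X.Nonempty) (i : ℕ) (hi : 1 ≤ i) :
    i * (X + sf (stb (i • X))).card ≤ (i • X).card + (i - 1) * Nat.card (stb (i • X)) := by
  have h1 : i • (X + sf (stb (i • X))) = i • X := by
    rw [nsmul_add, sf_eq_nsmul _ i hi, add_sf_stb]
  have h2 : X + sf (stb (i • X)) + sf (stb (i • X)) = X + sf (stb (i • X)) := by
    rw [add_assoc, sf_add_sf]
  have h3 : (X + sf (stb (i • X))).Nonempty := hX.add ⟨0, zero_mem_sf _⟩
  have h4 := kneser_iter_aux (X + sf (stb (i • X))) h3 (stb (i • X)) h2 i hi (by rw [h1])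
  rwa [h1] at h4

end AM
end

section

set_option autoImplicit false
set_option linter.unusedSectionVars false

open Finset Pointwise

namespace AM

open RG (stb mem_stb)
open Pool.Agent.Lib.MP_d3cc86_co (Asym symz card_symz)

variable {G : Type} [AddCommGroup G] [Fintype G]

/-- Growth of `i • S`, `S = symz V = {0} ∪ V ∪ -V`.  `i = 0` is trivial (`|0 • S| = 1`).  `i ≥ 1`: let
`H = stb (i • S)`.
If `V ⊆ H`: `0 ∈ i • S` implies `H ⊆ i • S`, and `closure V ≤ H`: first alternative.
Otherwise some `v ∈ V` is not in `H`.  `kneser_iter`: `i |S + sf H| ≤ |i • S| + (i-1) |H|`.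
Case `|H| ≥ 2 |V|`: `S + sf H ⊇ sf H ∪ (v + sf H)` (disjoint), so `|i • S| ≥ 2 i |H| - (i-1) |H| =
(i+1) |H| ≥ (i+1) 2 |V| ≥ 2 g i + 1` (`g ≤ |V|`, `|V| ≥ 1`).
Case `|H| < 2 |V|`: by `Thick`, `|off V H| ≥ g`; `S + sf H ⊇ sf H ∪ off V H ∪ -(off V H)`, three
disjoint sets (`V` is asymmetric), so `|S + sf H| ≥ |H| + 2 g` and
`|i • S| ≥ i (|H| + 2 g) - (i-1) |H| = |H| + 2 g i ≥ 1 + 2 g i`. -/
theorem growth [DecidableEq G] (V : Finset G) (hV : Asym V) (g : ℕ) (hT : Thick V g) (i : ℕ) :
    (∀ x ∈ AddSubgroup.closure (V : Set G), x ∈ i • symz V) ∨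
      1 + 2 * g * i ≤ (i • symz V).card := by
  classical
  rcases Nat.eq_zero_or_pos i with rfl | hi
  · right
    rw [zero_nsmul, mul_zero, add_zero]
    exact Finset.one_le_card.2 ⟨0, Finset.zero_mem_zero⟩
  have h0S : (0 : G) ∈ symz V := Finset.mem_insert_self _ _
  have h0 : (0 : G) ∈ i • symz V := by
    have h1 := Finset.nsmul_mem_nsmul h0S (n := i)
    rwa [nsmul_zero] at h1
  have hK := kneser_iter (symz V) ⟨0, h0S⟩ i hi
  obtain ⟨H, hH⟩ : ∃ H, H = stb (i • symz V) := ⟨_, rfl⟩
  rw [← hH] at hK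
  have hcV : 0 < Nat.card H := Nat.card_pos
  by_cases hall : ∀ v ∈ V, v ∈ H
  · left
    intro x hx
    have h1 : AddSubgroup.closure (V : Set G) ≤ H :=
      (AddSubgroup.closure_le H).2 fun v hv => hall v hv
    have h2 : x ∈ stb (i • symz V) := hH ▸ h1 hx
    have h3 := (mem_stb _ _).1 h2 0
    rw [zero_add] at h3
    exact h3.2 h0
  right
  have hsub1 : sf H ⊆ symz V + sf H := by
    intro h hh
    rw [Finset.mem_add]
    exact ⟨0, h0S, h, hh, zero_add h⟩
  obtain ⟨j, rfl⟩ : ∃ j, i = j + 1 := ⟨i - 1, by omega⟩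
  rw [Nat.add_sub_cancel] at hK
  by_cases hbig : 2 * V.card ≤ Nat.card H
  · push Not at hall
    obtain ⟨v, hvV, hvH⟩ := hall
    have hvS : v ∈ symz V := Finset.mem_insert_of_mem (Finset.mem_union_left _ hvV)
    have hcard : 2 * Nat.card H ≤ (symz V + sf H).card := by
      have h1 : sf H ∪ (sf H).image (fun h => v + h) ⊆ symz V + sf H := by
        refine Finset.union_subset hsub1 ?_
        intro y hy
        obtain ⟨h, hh, rfl⟩ := Finset.mem_image.1 hy
        exact Finset.add_mem_add hvS hh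
      have h2 : Disjoint (sf H) ((sf H).image (fun h => v + h)) := by
        rw [Finset.disjoint_left]
        intro y hy hy'
        obtain ⟨h, hh, rfl⟩ := Finset.mem_image.1 hy'
        rw [mem_sf] at hy hh
        exact hvH ((H.add_mem_cancel_right hh).1 hy)
      have h3 := Finset.card_le_card h1
      rw [Finset.card_union_of_disjoint h2, Finset.card_image_of_injective _
        (add_right_injective v), card_sf] at h3
      omega
    have hV1 : 1 ≤ V.card := Finset.one_le_card.2 ⟨v, hvV⟩
    have hg := hT.1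
    have h4 : (j + 1) * (2 * Nat.card H) ≤ (j + 1) * (symz V + sf H).card :=
      Nat.mul_le_mul_left _ hcard
    have h5 : (j + 2) * Nat.card H ≤ ((j + 1) • symz V).card := by
      have h6 : (j + 1) * (2 * Nat.card H) = (j + 2) * Nat.card H + j * Nat.card H := by ring
      omega
    have h7 : (j + 2) * (2 * V.card) ≤ (j + 2) * Nat.card H := Nat.mul_le_mul_left _ hbig
    have h8 : 2 * g * (j + 1) ≤ 2 * V.card * (j + 1) :=
      Nat.mul_le_mul_right _ (by omega)
    have h9 : (j + 2) * (2 * V.card) = 2 * V.card * (j + 1) + 2 * V.card := by ring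
    omega
  · push Not at hbig
    have hgo := hT.2 H hbig hall
    have hcard : Nat.card H + 2 * g ≤ (symz V + sf H).card := by
      have h1 : sf H ∪ (off V H ∪ -(off V H)) ⊆ symz V + sf H := by
        refine Finset.union_subset hsub1 (Finset.union_subset ?_ ?_)
        · intro y hy
          rw [mem_off] at hy
          rw [Finset.mem_add]
          exact ⟨y, Finset.mem_insert_of_mem (Finset.mem_union_left _ hy.1), 0, zero_mem_sf H,
            add_zero y⟩
        · intro y hy
          rw [Finset.mem_neg', mem_off] at hy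
          rw [Finset.mem_add]
          exact ⟨y, Finset.mem_insert_of_mem (Finset.mem_union_right _ (Finset.mem_neg'.2 hy.1)),
            0, zero_mem_sf H, add_zero y⟩
      have h2 : Disjoint (off V H) (-(off V H)) := by
        rw [Finset.disjoint_left]
        intro y hy hy'
        rw [Finset.mem_neg', mem_off] at hy'
        rw [mem_off] at hy
        exact hV y hy.1 hy'.1
      have h3 : Disjoint (sf H) (off V H ∪ -(off V H)) := by
        rw [Finset.disjoint_left]
        intro y hy hy'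
        rw [mem_sf] at hy
        rcases Finset.mem_union.1 hy' with h4 | h4
        · rw [mem_off] at h4
          exact h4.2 hy
        · rw [Finset.mem_neg', mem_off] at h4
          exact h4.2 (H.neg_mem hy)
      have h4 := Finset.card_le_card h1
      rw [Finset.card_union_of_disjoint h3, Finset.card_union_of_disjoint h2,
        Finset.card_neg, card_sf] at h4
      omega
    have h4 : (j + 1) * (Nat.card H + 2 * g) ≤ (j + 1) * (symz V + sf H).card :=
      Nat.mul_le_mul_left _ hcard
    have h5 : (j + 1) * (Nat.card H + 2 * g) =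
        Nat.card H + j * Nat.card H + 2 * g * (j + 1) := by ring
    omega

end AM
end

section

set_option autoImplicit false
set_option linter.unusedSectionVars false

open Finset Pointwise

namespace AM

open RG (stb mem_stb)
open Pool.Agent.Lib.MP_d3cc86_co (lam lam_neg lam_zero lam_compl Asym symz)

variable {G : Type} [AddCommGroup G] [Fintype G]

/-- Let `H = closure V` and choose `x ∈ V` with `l = lam B x` maximal (`V` is not empty because
`1 ≤ g ≤ |V|`).  Let `C = B` if `2 |B| ≤ |H|` and `C = sf H \ B` otherwise; `lam C s = lam B s` for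
`s ∈ H` (`lam_compl`), so `lam C s ≤ l` for all `s ∈ symz V` (`lam_neg`, `lam_zero`).  With
`c = |C|`: `g L + 1 ≤ c` and `2 c ≤ |H|`.  Put `J = (c - 1) / g ≥ L`: `g J + 1 ≤ c ≤ g J + g`.  For
`1 ≤ i ≤ J`: `growth` gives `|i • S| ≥ 1 + 2 g i`, or `i • S ⊇ H` and then
`|i • S| ≥ |H| ≥ 2 c ≥ 2 (g J + 1) ≥ 1 + 2 g i`.  So `layer` gives `g J + 1 ≤ J l + g`.
If `l ≥ g` the claim `g L + 1 ≤ L l + g` is clear (`g ≥ 1`); otherwise
`L (g - l) ≤ J (g - l) ≤ g - 1`. -/
theorem stage [DecidableEq G] (V B : Finset G) (hV : Asym V)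
    (hB : ∀ x ∈ B, x ∈ AddSubgroup.closure (V : Set G)) (g L : ℕ) (hg : 1 ≤ g) (hL : 1 ≤ L)
    (hT : Thick V g) (h1 : g * L + 1 ≤ B.card)
    (h2 : B.card + g * L + 1 ≤ Nat.card (AddSubgroup.closure (V : Set G))) :
    ∃ x ∈ V, g * L + 1 ≤ L * lam B x + g := by
  classical
  have hVne : V.Nonempty := by
    rw [← Finset.card_pos]
    have := hT.1
    omega
  obtain ⟨x, hx, hmax⟩ := Finset.exists_max_image V (lam B) hVne
  refine ⟨x, hx, ?_⟩
  set l := lam B x with hl
  set Hs := AddSubgroup.closure (V : Set G) with hHs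
  have hK : (sf Hs).card = Nat.card Hs := card_sf Hs
  have hBK : B ⊆ sf Hs := fun y hy => (mem_sf Hs y).2 (hB y hy)
  have h0 : (0 : G) ∈ symz V := by simp [symz]
  have hsl : ∀ s ∈ symz V, lam B s ≤ l := by
    intro s hs
    simp only [symz, Finset.mem_insert, Finset.mem_union, Finset.mem_neg'] at hs
    rcases hs with rfl | hs | hs
    · rw [lam_zero]; exact Nat.zero_le _
    · exact hmax s hs
    · rw [← lam_neg]; exact hmax _ hs
  have hsH : ∀ s ∈ symz V, s ∈ Hs := by
    intro s hs
    simp only [symz, Finset.mem_insert, Finset.mem_union, Finset.mem_neg'] at hs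
    rcases hs with rfl | hs | hs
    · exact Hs.zero_mem
    · exact AddSubgroup.subset_closure hs
    · have h3 : -s ∈ Hs := AddSubgroup.subset_closure hs
      have := Hs.neg_mem h3
      rwa [neg_neg] at this
  have hinv : ∀ s ∈ symz V, s +ᵥ sf Hs = sf Hs := by
    intro s hs
    ext z
    rw [Finset.mem_vadd_finset, mem_sf]
    constructor
    · rintro ⟨y, hy, rfl⟩
      exact Hs.add_mem (hsH s hs) ((mem_sf Hs y).1 hy)
    · intro hz
      exact ⟨-s + z, (mem_sf Hs _).2 (Hs.add_mem (Hs.neg_mem (hsH s hs)) hz), by simp⟩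
  have hC : ∃ C : Finset G, g * L + 1 ≤ C.card ∧ 2 * C.card ≤ (sf Hs).card ∧
      ∀ s ∈ symz V, lam C s ≤ l := by
    by_cases h : 2 * B.card ≤ (sf Hs).card
    · exact ⟨B, h1, h, hsl⟩
    · refine ⟨sf Hs \ B, ?_, ?_, ?_⟩
      · rw [Finset.card_sdiff_of_subset hBK]
        omega
      · rw [Finset.card_sdiff_of_subset hBK]
        omega
      · intro s hs
        rw [lam_compl hBK (hinv s hs)]
        exact hsl s hs
  obtain ⟨C, hC1, hC2, hC3⟩ := hC
  have hLJ : L ≤ (C.card - 1) / g := by
    rw [Nat.le_div_iff_mul_le (by omega)]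
    rw [Nat.mul_comm]
    omega
  obtain ⟨J, hJ⟩ : ∃ J, J = (C.card - 1) / g := ⟨_, rfl⟩
  rw [← hJ] at hLJ
  have hJ1 : g * J ≤ C.card - 1 := by
    rw [hJ]; exact Nat.mul_div_le _ _
  have hJ2 : C.card - 1 < g * J + g := by
    have := Nat.lt_mul_div_succ (C.card - 1) (show 0 < g by omega)
    rw [← hJ] at this
    calc _ < _ := this
      _ = _ := by ring
  have hS : ∀ i, 1 ≤ i → i ≤ J → 1 + 2 * g * i ≤ (i • symz V).card := by
    intro i _ hi
    rcases growth V hV g hT i with h | h
    · have h4 : (sf Hs).card ≤ (i • symz V).card :=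
        Finset.card_le_card fun z hz => h z ((mem_sf Hs z).1 hz)
      have h5 : g * i ≤ g * J := Nat.mul_le_mul_left _ hi
      have h6 : 2 * g * i = 2 * (g * i) := by ring
      omega
    · exact h
  have hlay := layer C (symz V) h0 g J l hg (hL.trans hLJ) (by omega) (by omega) hS hC3
  by_cases hgl : g ≤ l
  · have : L * g ≤ L * l := Nat.mul_le_mul_left _ hgl
    rw [Nat.mul_comm g L]
    omega
  · obtain ⟨d, hd⟩ : ∃ d, g = l + d := ⟨g - l, by omega⟩
    have h7 : L * d ≤ J * d := Nat.mul_le_mul_right _ hLJ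
    have h8 : g * J = J * l + J * d := by rw [hd]; ring
    have h9 : g * L = L * l + L * d := by rw [hd]; ring
    omega

end AM
end
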